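import Mathlib

/-!
Frobenius elements: if a monic integer polynomial has exactly `t` roots modulo a prime `p`, all of
them simple, then some element of the Galois group of its splitting field fixes exactly `t` roots.
-/

namespace Pool.Agent.Lib.MP_ff3579_an.Y

open NumberField Polynomial

theorem exists_frob (K : Type*) [Field K] [NumberField K] [IsGalois ℚ K] (p : ℕ)
    [hp : Fact p.Prime] : ∃ (Q : Ideal (𝓞 K)) (_ : Q.IsMaximal) (σ : Gal(K/ℚ)),
      CharP (𝓞 K ⧸ Q) p ∧
      ∀ x : 𝓞 K, Ideal.Quotient.mk Q (σ • x) = Ideal.Quotient.mk Q x ^ p := by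
  set P : Ideal ℤ := Ideal.span {(p : ℤ)} with hP
  have hp0 : P ≠ ⊥ := by
    rw [hP, Ne, Ideal.span_singleton_eq_bot]
    exact_mod_cast hp.out.ne_zero
  have hpprime : P.IsPrime := by
    rw [hP, Ideal.span_singleton_prime (by exact_mod_cast hp.out.ne_zero)]
    exact Nat.prime_iff_prime_int.1 hp.out
  obtain ⟨⟨Q, hQ1, hQ2⟩⟩ := P.nonempty_primesOver (S := 𝓞 K)
  have hmap : P.map (algebraMap ℤ (𝓞 K)) = Ideal.span {(p : 𝓞 K)} := by
    rw [hP, Ideal.map_span]
    simp
  have hr0 : (p : 𝓞 K) ≠ 0 := by exact_mod_cast hp.out.ne_zero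
  have hmap0 : P.map (algebraMap ℤ (𝓞 K)) ≠ ⊥ := by
    rw [hmap, Ne, Ideal.span_singleton_eq_bot]
    exact hr0
  have hQbot : Q ≠ ⊥ := ne_bot_of_le_ne_bot hmap0 (Ideal.map_le_of_le_comap (Q.over_def P).le)
  have hfin : Finite (𝓞 K ⧸ Q) := Ideal.finiteQuotientOfFreeOfNeBot Q hQbot
  have hmax : Q.IsMaximal := hQ1.isMaximal hQbot
  obtain ⟨σ, hσ⟩ := IsArithFrobAt.exists_of_isInvariant (S := 𝓞 K) ℤ Gal(K/ℚ) Q
  have hunder : Q.under ℤ = P := (Q.over_def P).symm
  have hcard : Nat.card (ℤ ⧸ Q.under ℤ) = p := by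
    rw [hunder, hP]
    exact (Nat.card_congr (Int.quotientSpanNatEquivZMod p).toEquiv).trans (Nat.card_zmod p)
  refine ⟨Q, hmax, σ, ?_, ?_⟩
  · have hmem : (p : 𝓞 K) ∈ Q := by
      have : (p : ℤ) ∈ Q.under ℤ := by
        rw [hunder, hP]
        exact Ideal.mem_span_singleton_self _
      simpa [Ideal.under, Ideal.mem_comap] using this
    have hp1 : ((p : ℕ) : 𝓞 K ⧸ Q) = 0 := by
      have h1 := Ideal.Quotient.eq_zero_iff_mem.mpr hmem
      simpa using h1
    obtain ⟨q, hq⟩ := CharP.exists (𝓞 K ⧸ Q)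
    have hnt : Nontrivial (𝓞 K ⧸ Q) := Ideal.Quotient.nontrivial_iff.mpr hmax.ne_top
    have h2 : q ∣ p := (CharP.cast_eq_zero_iff (𝓞 K ⧸ Q) q p).mp hp1
    rcases (Nat.dvd_prime hp.out).mp h2 with h3 | h3
    · exact absurd h3 (CharP.char_ne_one (𝓞 K ⧸ Q) q)
    · rwa [h3] at hq
  · intro x
    have h := hσ.mk_apply x
    rw [hcard] at h
    exact h

/-- In a field of characteristic `p` the solutions of `x ^ p = x` come from the prime field. -/
theorem exists_cast_of_pow_eq {k : Type*} [Field k] {p : ℕ} [hp : Fact p.Prime] [CharP k p]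
    {x : k} (hx : x ^ p = x) : ∃ c : ZMod p, ZMod.castHom (dvd_refl p) k c = x := by
  have h1 : x ∈ (⊥ : Subfield k) := (Subfield.mem_bot_iff_pow_eq_self k p).mpr hx
  have h2 : (⊥ : Subfield k) ≤ (ZMod.castHom (dvd_refl p) k).fieldRange := bot_le
  exact RingHom.mem_fieldRange.mp (h2 h1)

theorem exists_fixed_count (K : Type*) [Field K] [NumberField K] [IsGalois ℚ K] {ι : Type*}
    [Fintype ι] [DecidableEq ι] (f : ℤ[X]) (a : ι → 𝓞 K)
    (hf : f.map (Int.castRingHom (𝓞 K)) = ∏ i, (X - C (a i))) (p : ℕ) [hp : Fact p.Prime]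
    (T : Finset (ZMod p))
    (hT : ∀ c : ZMod p, c ∈ T ↔ (f.map (Int.castRingHom (ZMod p))).eval c = 0)
    (hT' : ∀ c ∈ T, (f.map (Int.castRingHom (ZMod p))).derivative.eval c ≠ 0) :
    ∃ σ : Gal(K/ℚ), {i | σ • a i = a i}.ncard = T.card := by
  classical
  obtain ⟨Q, hQ, σ, hchar, hσ⟩ := exists_frob K p
  let _ : Field (𝓞 K ⧸ Q) := Ideal.Quotient.field Q
  set π := Ideal.Quotient.mk Q with hπ
  set j := ZMod.castHom (dvd_refl p) (𝓞 K ⧸ Q) with hj
  have hjinj : Function.Injective j := j.injective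
  have hcomp : (Int.castRingHom (𝓞 K ⧸ Q)) = j.comp (Int.castRingHom (ZMod p)) :=
    RingHom.ext_int _ _
  have hcomp2 : (Int.castRingHom (𝓞 K ⧸ Q)) = π.comp (Int.castRingHom (𝓞 K)) :=
    RingHom.ext_int _ _
  -- the reduced polynomial
  have hred : (f.map (Int.castRingHom (ZMod p))).map j = ∏ i, (X - C (π (a i))) := by
    rw [Polynomial.map_map, ← hcomp, hcomp2, ← Polynomial.map_map, hf, Polynomial.map_prod]
    simp
  have hmemT : ∀ (c : ZMod p) (i : ι), j c = π (a i) → c ∈ T := by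
    intro c i h
    rw [hT]
    apply hjinj
    rw [map_zero, ← Polynomial.eval_map_apply, hred, eval_prod]
    exact Finset.prod_eq_zero (Finset.mem_univ i) (by simp [h])
  have hexT : ∀ c ∈ T, ∃ i, j c = π (a i) := by
    intro c hc
    rw [hT] at hc
    have h1 := congrArg j hc
    rw [map_zero, ← Polynomial.eval_map_apply, hred, eval_prod] at h1
    obtain ⟨i, -, hi⟩ := Finset.prod_eq_zero_iff.mp h1
    exact ⟨i, by simpa [sub_eq_zero] using hi⟩
  have huniq : ∀ (c : ZMod p) (i l : ι), j c = π (a i) → j c = π (a l) → i = l := by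
    intro c i l hi hl
    by_contra hne
    apply hT' c (hmemT c i hi)
    apply hjinj
    rw [map_zero, ← Polynomial.eval_map_apply, ← derivative_map, hred]
    have hdvd : (X - C (j c)) * (X - C (j c)) ∣ ∏ i, (X - C (π (a i))) := by
      have h1 : ∏ x ∈ ({i, l} : Finset ι), (X - C (π (a x))) ∣ ∏ i, (X - C (π (a i))) :=
        Finset.prod_dvd_prod_of_subset _ _ _ (Finset.subset_univ _)
      rw [Finset.prod_pair hne, ← hi, ← hl] at h1
      exact h1
    obtain ⟨g, hg⟩ := hdvd
    rw [hg]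
    simp [derivative_mul]
  refine ⟨σ, ?_⟩
  have hfix : ∀ i, σ • a i = a i → ∃ c : ZMod p, j c = π (a i) := by
    intro i hi
    apply exists_cast_of_pow_eq
    rw [← hσ, hi]
  choose! g hg using hfix
  have himg : g '' {i | σ • a i = a i} = (T : Set (ZMod p)) := by
    ext c
    constructor
    · rintro ⟨i, hi, rfl⟩
      exact hmemT _ i (hg i hi)
    · intro hc
      obtain ⟨i, hi⟩ := hexT c hc
      have hσi : σ • a i = a i := by
        have h1 : ∃ l, a l = σ • a i := by
          have h2 : (f.map (Int.castRingHom (𝓞 K))).eval (σ • a i) = 0 := by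
            have h4 : (f.map (Int.castRingHom (𝓞 K))).eval (a i) = 0 := by
              rw [hf, eval_prod]
              exact Finset.prod_eq_zero (Finset.mem_univ i) (by simp)
            have h5 : MulSemiringAction.toRingHom Gal(K/ℚ) (𝓞 K) σ (eval (a i)
                (f.map (Int.castRingHom (𝓞 K)))) = 0 := by rw [h4, map_zero]
            rw [← Polynomial.eval_map_apply, Polynomial.map_map] at h5
            have h6 : (MulSemiringAction.toRingHom Gal(K/ℚ) (𝓞 K) σ).comp
                (Int.castRingHom (𝓞 K)) = Int.castRingHom (𝓞 K) := RingHom.ext_int _ _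
            rw [h6] at h5
            exact h5
          rw [hf, eval_prod] at h2
          obtain ⟨l, -, hl⟩ := Finset.prod_eq_zero_iff.mp h2
          exact ⟨l, by simpa [sub_eq_zero, eq_comm] using hl⟩
        obtain ⟨l, hl⟩ := h1
        have h3 : j c = π (a l) := by
          rw [hl, hσ, ← hi, ← map_pow, ZMod.pow_card]
        rw [← hl, huniq c l i h3 hi]
      refine ⟨i, hσi, ?_⟩
      apply hjinj
      rw [hg i hσi, hi]
  have hinj : Set.InjOn g {i | σ • a i = a i} := by
    intro i hi l hl h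
    exact huniq (g i) i l (hg i hi) (by rw [h]; exact hg l hl)
  rw [← hinj.ncard_image, himg, Set.ncard_coe_finset]

end Pool.Agent.Lib.MP_ff3579_an.Y
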