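import Pool.Agent.Lib.MP_ff3579_an.Y.Jor
import Pool.Agent.Lib.MP_ff3579_an.Y.Frob

/-!
Criteria for the Galois group of an irreducible integer polynomial to be at least as large as the
alternating group.
-/

namespace Pool.Agent.Lib.MP_ff3579_an.Y

open Polynomial MulAction Equiv Equiv.Perm NumberField

/-- The Galois group as a permutation group of the roots in the splitting field. -/
noncomputable def galRange (g : ℚ[X]) : Subgroup (Perm (g.rootSet g.SplittingField)) :=
  haveI : Fact ((g.map (algebraMap ℚ g.SplittingField)).Splits) := ⟨SplittingField.splits g⟩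
  (Gal.galActionHom g g.SplittingField).range

theorem card_galRange {g : ℚ[X]} (hsep : g.Separable) :
    Nat.card (galRange g) = Module.finrank ℚ g.SplittingField := by
  have : Fact ((g.map (algebraMap ℚ g.SplittingField)).Splits) := ⟨SplittingField.splits g⟩
  rw [← Gal.card_of_separable hsep]
  exact (Nat.card_congr
    (MonoidHom.ofInjective (Gal.galActionHom_injective g g.SplittingField)).toEquiv).symm

theorem isPretransitive_galRange {g : ℚ[X]} (hirr : Irreducible g) :
    IsPretransitive (galRange g) (g.rootSet g.SplittingField) := by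
  have : Fact ((g.map (algebraMap ℚ g.SplittingField)).Splits) := ⟨SplittingField.splits g⟩
  have htr := Gal.galAction_isPretransitive g g.SplittingField hirr
  constructor
  intro x y
  obtain ⟨t, ht⟩ := htr.exists_smul_eq x y
  exact ⟨⟨Gal.galActionHom g g.SplittingField t, t, rfl⟩, ht⟩

theorem card_rootSet_galRange {g : ℚ[X]} (hsep : g.Separable) :
    Fintype.card (g.rootSet g.SplittingField) = g.natDegree :=
  card_rootSet_eq_natDegree hsep (SplittingField.splits g)

theorem factorial_le_of_alternating {g : ℚ[X]} (hsep : g.Separable) (h2 : 2 ≤ g.natDegree)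
    [DecidableEq (g.rootSet g.SplittingField)]
    (hG : alternatingGroup (g.rootSet g.SplittingField) ≤ galRange g) :
    g.natDegree.factorial ≤ 2 * Module.finrank ℚ g.SplittingField := by
  have hcard := card_rootSet_galRange hsep
  have hnt : Nontrivial (g.rootSet g.SplittingField) :=
    Fintype.one_lt_card_iff_nontrivial.mp (by omega)
  have h1 := two_mul_nat_card_alternatingGroup (α := g.rootSet g.SplittingField)
  rw [Nat.card_perm, Nat.card_eq_fintype_card (α := g.rootSet g.SplittingField), hcard] at h1
  rw [← h1, ← card_galRange hsep]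
  exact Nat.mul_le_mul_left _ (Subgroup.card_le_of_le hG)

theorem irreducible_map {f : ℤ[X]} (hf : f.Monic) (hirr : Irreducible f) :
    Irreducible (f.map (Int.castRingHom ℚ)) := by
  have := (hf.irreducible_iff_irreducible_map_fraction_map (K := ℚ)).1 hirr
  rwa [algebraMap_int_eq] at this

/-- First criterion: a large prime divisor of the order. -/
theorem large_of_prime_dvd {f : ℤ[X]} (hf : f.Monic) (hirr : Irreducible f) {r : ℕ}
    (hr : r.Prime) (h1 : f.natDegree < 2 * r) (h2 : r + 3 ≤ f.natDegree)
    (hd : r ∣ Module.finrank ℚ (f.map (Int.castRingHom ℚ)).SplittingField) :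
    (f.map (Int.castRingHom ℚ)).natDegree.factorial ≤
      2 * Module.finrank ℚ (f.map (Int.castRingHom ℚ)).SplittingField := by
  classical
  have hgirr := irreducible_map hf hirr
  have hsep := hgirr.separable
  have hdeg : (f.map (Int.castRingHom ℚ)).natDegree = f.natDegree := hf.natDegree_map _
  refine factorial_le_of_alternating hsep (by omega) ?_
  refine alternating_le_of_prime_dvd (isPretransitive_galRange hgirr) hr ?_ ?_ ?_
  · rw [card_rootSet_galRange hsep, hdeg]
    exact h1
  · rw [card_rootSet_galRange hsep, hdeg]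
    exact h2
  · rw [card_galRange hsep]
    exact hd

/-- A version of `exists_fixed_count` with a free rational algebra structure. -/
theorem exists_fixed_count' (K : Type*) [Field K] [inst : Algebra ℚ K] [IsGalois ℚ K]
    [FiniteDimensional ℚ K] {ι : Type*} [Fintype ι] [DecidableEq ι] (f : ℤ[X]) (hf : f.Monic)
    (a : ι → K)
    (hfa : f.map (Int.castRingHom K) = ∏ i, (X - C (a i))) (p : ℕ) [hp : Fact p.Prime]
    (T : Finset (ZMod p))
    (hT : ∀ c : ZMod p, c ∈ T ↔ (f.map (Int.castRingHom (ZMod p))).eval c = 0)
    (hT' : ∀ c ∈ T, (f.map (Int.castRingHom (ZMod p))).derivative.eval c ≠ 0) :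
    ∃ σ : Gal(K/ℚ), {i | σ (a i) = a i}.ncard = T.card := by
  have hc : CharZero K := algebraRat.charZero K
  have e : inst = DivisionRing.toRatAlgebra := Subsingleton.elim _ _
  subst e
  have : NumberField K := ⟨⟩
  have hint : ∀ i, IsIntegral ℤ (a i) := by
    intro i
    refine ⟨f, hf, ?_⟩
    have h1 : (f.map (Int.castRingHom K)).eval (a i) = 0 := by
      rw [hfa, eval_prod]
      exact Finset.prod_eq_zero (Finset.mem_univ i) (by simp)
    rw [eval_map] at h1
    exact h1
  let b : ι → 𝓞 K := fun i => ⟨a i, hint i⟩
  have hb : ∀ i, algebraMap (𝓞 K) K (b i) = a i := fun i => rfl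
  have hprod : f.map (Int.castRingHom (𝓞 K)) = ∏ i, (X - C (b i)) := by
    apply Polynomial.map_injective (algebraMap (𝓞 K) K) RingOfIntegers.coe_injective
    rw [Polynomial.map_map, Polynomial.map_prod]
    have h6 : (algebraMap (𝓞 K) K).comp (Int.castRingHom (𝓞 K)) = Int.castRingHom K :=
      RingHom.ext_int _ _
    rw [h6, hfa]
    refine Finset.prod_congr rfl fun i _ => ?_
    rw [Polynomial.map_sub, Polynomial.map_X, Polynomial.map_C, hb]
  obtain ⟨σ, hσ⟩ := exists_fixed_count K f b hprod p T hT hT'
  refine ⟨σ, ?_⟩
  rw [← hσ]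
  congr 1
  ext i
  simp only [Set.mem_ofPred_eq]
  constructor
  · intro h
    apply RingOfIntegers.ext
    exact h
  · intro h
    exact congrArg (fun x : 𝓞 K => (x : K)) h

/-- A monic separable polynomial which splits is the product of `X - x` over its roots. -/
theorem map_eq_prod {F L : Type*} [Field F] [Field L] [Algebra F L] {g : F[X]} (hg : g.Monic)
    (hsep : g.Separable) (hs : (g.map (algebraMap F L)).Splits) :
    g.map (algebraMap F L) = ∏ i : g.rootSet L, (X - C (i : L)) := by
  classical
  have hnodup : (g.map (algebraMap F L)).roots.Nodup := nodup_roots hsep.map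
  have h1 := hs.eq_prod_roots_of_monic (hg.map _)
  have h2 : (g.map (algebraMap F L)).roots =
      (g.map (algebraMap F L)).roots.toFinset.val := by
    rw [Multiset.toFinset_val, hnodup.dedup]
  conv_lhs => rw [h1]
  rw [h2, Finset.prod_map_val]
  have h3 : ∀ x : L, x ∈ (g.map (algebraMap F L)).roots.toFinset ↔ x ∈ g.rootSet L := by
    intro x
    rw [rootSet_def, Finset.mem_coe]
  exact Finset.prod_subtype _ h3 (fun x => X - C x)

/-- An element of the group with a prescribed number of fixed points. -/
theorem exists_support_card {f : ℤ[X]} (hf : f.Monic) (hirr : Irreducible f) (p : ℕ)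
    [hp : Fact p.Prime] {q : ℚ[X]} (hq : f.map (Int.castRingHom ℚ) = q)
    [DecidableEq (q.rootSet q.SplittingField)]
    (T : Finset (ZMod p))
    (hT : ∀ c : ZMod p, c ∈ T ↔ (f.map (Int.castRingHom (ZMod p))).eval c = 0)
    (hT' : ∀ c ∈ T, (f.map (Int.castRingHom (ZMod p))).derivative.eval c ≠ 0) :
    ∃ g ∈ galRange q, g.support.card + T.card = f.natDegree := by
  have hqirr := irreducible_map hf hirr
  rw [hq] at hqirr
  have hsep := hqirr.separable
  have hfact : Fact ((q.map (algebraMap ℚ q.SplittingField)).Splits) := ⟨SplittingField.splits q⟩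
  have hgal : IsGalois ℚ q.SplittingField := @IsGalois.of_separable_splitting_field ℚ _
    q.SplittingField _ _ q (IsSplittingField.splittingField q) hsep
  have hfd : FiniteDimensional ℚ q.SplittingField :=
    @IsSplittingField.finiteDimensional ℚ q.SplittingField _ _ _ q
      (IsSplittingField.splittingField q)
  have hqm : q.Monic := by
    rw [← hq]
    exact hf.map _
  have hprod : f.map (Int.castRingHom q.SplittingField) =
      ∏ i : q.rootSet q.SplittingField, (X - C (i : q.SplittingField)) := by
    refine Eq.trans ?_ (map_eq_prod hqm hsep (SplittingField.splits q))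
    have hcomp : (algebraMap ℚ q.SplittingField).comp (Int.castRingHom ℚ) =
      Int.castRingHom q.SplittingField := RingHom.ext_int _ _
    rw [← hcomp, ← Polynomial.map_map, hq]
  obtain ⟨σ, hσ⟩ := exists_fixed_count' q.SplittingField f hf
    (fun i : q.rootSet q.SplittingField => (i : q.SplittingField)) hprod p T hT hT'
  refine ⟨Gal.galActionHom q q.SplittingField (Gal.restrict q q.SplittingField σ), ⟨_, rfl⟩, ?_⟩
  set τ := Gal.galActionHom q q.SplittingField (Gal.restrict q q.SplittingField σ) with hτ
  have hval : ∀ i : q.rootSet q.SplittingField,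
      ((τ i : q.rootSet q.SplittingField) : q.SplittingField) = σ (i : q.SplittingField) := by
    intro i
    exact Gal.galActionHom_restrict q q.SplittingField σ i
  have h1 : {i : q.rootSet q.SplittingField | σ (i : q.SplittingField) = i} =
      ((τ.supportᶜ : Finset _) : Set (q.rootSet q.SplittingField)) := by
    ext i
    rw [Set.mem_ofPred_eq, Finset.mem_coe, Finset.mem_compl, Perm.notMem_support, ← hval i]
    exact (Subtype.ext_iff).symm
  rw [h1, Set.ncard_coe_finset] at hσ
  have h2 : τ.support.card + (τ.supportᶜ).card = Fintype.card (q.rootSet q.SplittingField) :=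
    Finset.card_add_card_compl τ.support
  rw [← hσ]
  refine h2.trans ((card_rootSet_galRange hsep).trans ?_)
  rw [← hq, hf.natDegree_map]

/-- Second criterion. -/
theorem large_of_frob {f : ℤ[X]} (hf : f.Monic) (hirr : Irreducible f) (p : ℕ)
    [hp : Fact p.Prime] (T : Finset (ZMod p))
    (hT : ∀ c : ZMod p, c ∈ T ↔ (f.map (Int.castRingHom (ZMod p))).eval c = 0)
    (hT' : ∀ c ∈ T, (f.map (Int.castRingHom (ZMod p))).derivative.eval c ≠ 0)
    (hcard : T.card + 2 = f.natDegree ∨ T.card + 3 = f.natDegree)
    (hprim : f.natDegree.Prime ∨ ∃ r : ℕ, r.Prime ∧ f.natDegree < 2 * r ∧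
      r ∣ Module.finrank ℚ (f.map (Int.castRingHom ℚ)).SplittingField) :
    (f.map (Int.castRingHom ℚ)).natDegree.factorial ≤
      2 * Module.finrank ℚ (f.map (Int.castRingHom ℚ)).SplittingField := by
  classical
  have hgirr := irreducible_map hf hirr
  have hsep := hgirr.separable
  have hdeg : (f.map (Int.castRingHom ℚ)).natDegree = f.natDegree := hf.natDegree_map _
  have htr := isPretransitive_galRange hgirr
  have hprim' : IsPreprimitive (galRange (f.map (Int.castRingHom ℚ)))
      ((f.map (Int.castRingHom ℚ)).rootSet (f.map (Int.castRingHom ℚ)).SplittingField) := by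
    rcases hprim with h | ⟨r, hr, h1, h2⟩
    · apply IsPreprimitive.of_prime_card
      rw [Nat.card_eq_fintype_card, card_rootSet_galRange hsep, hdeg]
      exact h
    · have hfact : Fact r.Prime := ⟨hr⟩
      rw [← card_galRange hsep] at h2
      obtain ⟨⟨g, hg⟩, hgo⟩ := exists_prime_orderOf_dvd_card'
        (G := galRange (f.map (Int.castRingHom ℚ))) r h2
      rw [Subgroup.orderOf_mk] at hgo
      have h3 : Fintype.card ((f.map (Int.castRingHom ℚ)).rootSet
          (f.map (Int.castRingHom ℚ)).SplittingField) < 2 * r := by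
        rw [card_rootSet_galRange hsep, hdeg]
        exact h1
      have hgc : g.IsCycle := isCycle_of_prime_order' (by rw [hgo]; exact hr)
        (by rw [hgo]; exact h3)
      exact isPreprimitive_of_cycle htr hr h3 hg hgc hgo
  obtain ⟨g, hg, hgs⟩ := exists_support_card hf hirr p rfl T hT hT'
  have h2 : 2 ≤ (f.map (Int.castRingHom ℚ)).natDegree := by
    rw [hdeg]
    omega
  refine factorial_le_of_alternating hsep h2 ?_
  rcases hcard with h | h
  · have h3 : g.IsSwap := by
      rw [← Perm.card_support_eq_two]
      omega
    rw [subgroup_eq_top_of_isPreprimitive_of_isSwap_mem hprim' g h3 hg]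
    exact le_top
  · have h3 : g.IsThreeCycle := by
      rw [← card_support_eq_three_iff]
      omega
    exact alternatingGroup_le_of_isPreprimitive_of_isThreeCycle_mem hprim' h3 hg

end Pool.Agent.Lib.MP_ff3579_an.Y
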