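import Mathlib

/-!
A field theoretic theorem: if the Galois group of an irreducible polynomial `p` of degree `m >= 5`
over a field of characteristic zero contains the alternating group, then no root of `p` is in the
smallest field that is closed under roots of all orders and under roots of polynomials of degree
less than `m`.
-/

namespace Pool.Agent.Lib.MP_ff3579_an.Y

open Polynomial IntermediateField Equiv

/-- A subgroup of index less than `m` of the alternating group on `m >= 5` letters is the whole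
group. -/
theorem alt_top_of_index_lt {α : Type*} [Fintype α] [DecidableEq α]
    (h5 : 5 ≤ Fintype.card α) (T : Subgroup (alternatingGroup α))
    (hT : T.index < Fintype.card α) : T = ⊤ := by
  have : IsSimpleGroup (alternatingGroup α) :=
    alternatingGroup.isSimpleGroup (by simpa using h5)
  have : Nontrivial α := Fintype.one_lt_card_iff_nontrivial.mp (by omega)
  rcases (T.normalCore_normal).eq_bot_or_eq_top with h | h
  · exfalso
    have hker : (MulAction.toPermHom (alternatingGroup α) (alternatingGroup α ⧸ T)).ker = ⊥ := by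
      rw [← Subgroup.normalCore_eq_ker, h]
    have hinj := (MonoidHom.ker_eq_bot_iff _).mp hker
    have hcard := Nat.card_le_card_of_injective _ hinj
    rw [Nat.card_perm] at hcard
    have hidx : Nat.card (alternatingGroup α ⧸ T) = T.index := rfl
    rw [hidx] at hcard
    have h2 := two_mul_nat_card_alternatingGroup (α := α)
    rw [Nat.card_perm, Nat.card_eq_fintype_card (α := α)] at h2
    have h3 : T.index.factorial ≤ (Fintype.card α - 1).factorial :=
      Nat.factorial_le (by omega)
    have h4 : (Fintype.card α).factorial =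
        Fintype.card α * (Fintype.card α - 1).factorial :=
      (Nat.mul_factorial_pred (by omega)).symm
    have h6 : 0 < (Fintype.card α - 1).factorial := Nat.factorial_pos _
    have h7 : 5 * (Fintype.card α - 1).factorial ≤ Fintype.card α *
        (Fintype.card α - 1).factorial := Nat.mul_le_mul_right _ h5
    omega
  · exact top_le_iff.mp (h ▸ T.normalCore_le)

section galois

variable {F Ω : Type*} [Field F] [Field Ω] [Algebra F Ω] (p : F[X])
  [Fact ((p.map (algebraMap F Ω)).Splits)]

/-- The action of the absolute Galois group on the roots of `p`. -/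
noncomputable def rho (Ω : Type*) [Field Ω] [Algebra F Ω]
    [Fact ((p.map (algebraMap F Ω)).Splits)] : Gal(Ω/F) →* Perm (p.rootSet Ω) :=
  (Gal.galActionHom p Ω).comp (Gal.restrict p Ω)

theorem rho_apply (s : Gal(Ω/F)) (x : p.rootSet Ω) : ((rho p Ω s x : p.rootSet Ω) : Ω) = s x :=
  Gal.galActionHom_restrict p Ω s x

/-- The field generated by the roots of `p`. -/
def rootField (Ω : Type*) [Field Ω] [Algebra F Ω] : IntermediateField F Ω :=
  IntermediateField.adjoin F (p.rootSet Ω)

theorem ker_rho_le : (rho p Ω).ker ≤ (rootField p Ω).fixingSubgroup := by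
  intro s hs
  have h : rootField p Ω ≤ IntermediateField.fixedField (Subgroup.zpowers s) := by
    refine IntermediateField.adjoin_le_iff.mpr ?_
    intro x hx
    have h1 : s x = x := by
      rw [← rho_apply p s ⟨x, hx⟩, (MonoidHom.mem_ker).mp hs]
      rfl
    refine (IntermediateField.mem_fixedField_iff _ _).mpr ?_
    intro t ht
    have h2 : Subgroup.zpowers s ≤ MulAction.stabilizer Gal(Ω/F) x :=
      Subgroup.zpowers_le.mpr h1
    exact h2 ht
  exact (IntermediateField.le_iff_le _ _).mp h (Subgroup.mem_zpowers s)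

theorem fixing_le_ker_rho : (rootField p Ω).fixingSubgroup ≤ (rho p Ω).ker := by
  intro s hs
  refine (MonoidHom.mem_ker).mpr ?_
  ext x
  rw [rho_apply]
  exact (IntermediateField.mem_fixingSubgroup_iff _ _).mp hs _
    (IntermediateField.subset_adjoin F _ x.2)

/-- The field fixed by the automorphisms which act on the roots of `p` by even permutations. -/
noncomputable def evenField (Ω : Type*) [Field Ω] [Algebra F Ω] [DecidableEq (p.rootSet Ω)]
    [Fact ((p.map (algebraMap F Ω)).Splits)] : IntermediateField F Ω :=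
  IntermediateField.fixedField ((alternatingGroup (p.rootSet Ω)).comap (rho p Ω))

variable [DecidableEq (p.rootSet Ω)]

theorem mem_evenField_iff (x : Ω) : x ∈ evenField p Ω ↔
    ∀ s : Gal(Ω/F), rho p Ω s ∈ alternatingGroup (p.rootSet Ω) → s x = x := by
  unfold evenField
  rw [IntermediateField.mem_fixedField_iff]
  simp only [Subgroup.mem_comap]

/-- If `K` meets the splitting field only in the even part then every even permutation of the
roots is induced by an automorphism over `K`. -/
theorem exists_lift [IsGalois F Ω] [FiniteDimensional F (rootField p Ω)]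
    (hA : alternatingGroup (p.rootSet Ω) ≤ (rho p Ω).range)
    (K : IntermediateField F Ω) (hK : K ⊓ rootField p Ω ≤ evenField p Ω)
    (σ : Perm (p.rootSet Ω)) (hσ : σ ∈ alternatingGroup (p.rootSet Ω)) :
    ∃ s ∈ K.fixingSubgroup, rho p Ω s = σ := by
  set C : Subgroup Gal(Ω/F) := (K.fixingSubgroup.map (rho p Ω)).comap (rho p Ω) with hC
  have hKC : K.fixingSubgroup ≤ C := Subgroup.le_comap_map _ _
  have hLC : (rootField p Ω).fixingSubgroup ≤ C := by
    intro s hs
    refine Subgroup.mem_comap.mpr ?_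
    rw [(MonoidHom.mem_ker).mp (fixing_le_ker_rho p hs)]
    exact one_mem _
  have hopen : IsOpen (C : Set Gal(Ω/F)) :=
    Subgroup.isOpen_mono hLC (rootField p Ω).fixingSubgroup_isOpen
  have hclosed : IsClosed (C : Set Gal(Ω/F)) := Subgroup.isClosed_of_isOpen C hopen
  have h1 : IntermediateField.fixedField C ≤ K := by
    have := IntermediateField.fixedField_antitone hKC
    rwa [InfiniteGalois.fixedField_fixingSubgroup] at this
  have h2 : IntermediateField.fixedField C ≤ rootField p Ω := by
    have := IntermediateField.fixedField_antitone hLC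
    rwa [InfiniteGalois.fixedField_fixingSubgroup] at this
  have h3 : IntermediateField.fixedField C ≤ evenField p Ω := (le_inf h1 h2).trans hK
  obtain ⟨s, rfl⟩ := hA hσ
  have h4 : s ∈ (IntermediateField.fixedField C).fixingSubgroup := by
    refine (IntermediateField.mem_fixingSubgroup_iff _ _).mpr ?_
    intro x hx
    exact (mem_evenField_iff p x).mp (h3 hx) s hσ
  have h5 : (IntermediateField.fixedField C).fixingSubgroup = C :=
    InfiniteGalois.fixingSubgroup_fixedField ⟨C, hclosed⟩
  rw [h5] at h4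
  obtain ⟨t, ht, hts⟩ := Subgroup.mem_map.mp (Subgroup.mem_comap.mp h4)
  exact ⟨t, ht, hts⟩

/-- If every even permutation of the roots has a lift fixing `z`, and `z` is in the splitting
field, then `z` is in the even part. -/
theorem mem_evenField_of_le {z : Ω} (hz : z ∈ rootField p Ω)
    (h : alternatingGroup (p.rootSet Ω) ≤
      (MulAction.stabilizer Gal(Ω/F) z).map (rho p Ω)) : z ∈ evenField p Ω := by
  refine (mem_evenField_iff p z).mpr ?_
  intro s hs
  obtain ⟨t, ht, hts⟩ := Subgroup.mem_map.mp (h hs)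
  have ht' : t z = z := ht
  have h1 : s⁻¹ * t ∈ (rho p Ω).ker := by
    refine (MonoidHom.mem_ker).mpr ?_
    rw [map_mul, map_inv, hts, inv_mul_cancel]
  have h2 : (s⁻¹ * t) z = z :=
    (IntermediateField.mem_fixingSubgroup_iff _ _).mp (ker_rho_le p h1) z hz
  have h3 : s ((s⁻¹ * t) z) = t z := by
    rw [← AlgEquiv.mul_apply, mul_inv_cancel_left]
  rw [h2, ht'] at h3
  exact h3

theorem fix_of_mem {K : IntermediateField F Ω} {y z : Ω}
    (hz : z ∈ K ⊔ IntermediateField.adjoin F {y}) {s : Gal(Ω/F)} (hs : s ∈ K.fixingSubgroup)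
    (hy : s y = y) : s z = z := by
  have key : K ⊔ IntermediateField.adjoin F {y} ≤
      IntermediateField.fixedField (Subgroup.zpowers s) := by
    refine sup_le ?_ ?_
    · exact (IntermediateField.le_iff_le _ _).mpr (Subgroup.zpowers_le.mpr hs)
    · refine IntermediateField.adjoin_le_iff.mpr ?_
      rintro x rfl
      refine (IntermediateField.mem_fixedField_iff _ _).mpr ?_
      intro t ht
      have h2 : Subgroup.zpowers s ≤ MulAction.stabilizer Gal(Ω/F) x :=
        Subgroup.zpowers_le.mpr hy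
      exact h2 ht
  exact (IntermediateField.mem_fixedField_iff _ _).mp (key hz) s (Subgroup.mem_zpowers s)

/-- There is a largest field which meets the splitting field in the even part. -/
theorem exists_maximal_good : ∃ K : IntermediateField F Ω,
    K ⊓ rootField p Ω ≤ evenField p Ω ∧
    ∀ K' : IntermediateField F Ω, K ≤ K' → K' ⊓ rootField p Ω ≤ evenField p Ω → K' ≤ K := by
  obtain ⟨K, -, hK⟩ := zorn_le_nonempty₀
    {K : IntermediateField F Ω | K ⊓ rootField p Ω ≤ evenField p Ω} (fun c hc hchain y hy => by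
      have hne : Nonempty c := ⟨⟨y, hy⟩⟩
      have hdir : Directed (· ≤ ·) (fun i : c => (i : IntermediateField F Ω)) :=
        directedOn_iff_directed.mp hchain.directedOn
      refine ⟨⨆ i : c, (i : IntermediateField F Ω), ?_, ?_⟩
      · intro x hx
        have hx1 : x ∈ ⨆ i : c, (i : IntermediateField F Ω) := hx.1
        have hx2 : x ∈ rootField p Ω := hx.2
        rw [← SetLike.mem_coe, IntermediateField.coe_iSup_of_directed hdir, Set.mem_iUnion] at hx1
        obtain ⟨i, hi⟩ := hx1
        exact hc i.2 ⟨hi, hx2⟩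
      · intro z hz
        exact le_iSup (fun i : c => (i : IntermediateField F Ω)) ⟨z, hz⟩) ⊥
      (by
        intro x hx
        exact (bot_le : (⊥ : IntermediateField F Ω) ≤ evenField p Ω) hx.1)
  exact ⟨K, hK.prop, fun K' h1 h2 => hK.le_of_ge h2 h1⟩

/-- Adjoining `y` keeps the field good if all elements of the larger field are fixed by a lift of
every even permutation. -/
theorem mem_of_all {K : IntermediateField F Ω}
    (hmax : ∀ K' : IntermediateField F Ω, K ≤ K' → K' ⊓ rootField p Ω ≤ evenField p Ω → K' ≤ K)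
    {y : Ω} (h : ∀ z ∈ K ⊔ IntermediateField.adjoin F {y},
      alternatingGroup (p.rootSet Ω) ≤ (MulAction.stabilizer Gal(Ω/F) z).map (rho p Ω)) :
    y ∈ K := by
  have h1 := hmax (K ⊔ IntermediateField.adjoin F {y}) le_sup_left (by
    intro z hz
    have hz1 : z ∈ K ⊔ IntermediateField.adjoin F {y} := hz.1
    exact mem_evenField_of_le p hz.2 (h z hz1))
  exact h1 ((le_sup_right : IntermediateField.adjoin F {y} ≤ _)
    (IntermediateField.subset_adjoin F _ (Set.mem_singleton y)))

variable [IsGalois F Ω] [FiniteDimensional F (rootField p Ω)]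

theorem mem_of_orbit (hA : alternatingGroup (p.rootSet Ω) ≤ (rho p Ω).range)
    (h5 : 5 ≤ Fintype.card (p.rootSet Ω)) {K : IntermediateField F Ω}
    (hK : K ⊓ rootField p Ω ≤ evenField p Ω)
    (hmax : ∀ K' : IntermediateField F Ω, K ≤ K' → K' ⊓ rootField p Ω ≤ evenField p Ω → K' ≤ K)
    {y : Ω} (R : Finset Ω) (hR : R.card < Fintype.card (p.rootSet Ω))
    (hy : ∀ s ∈ K.fixingSubgroup, s y ∈ R) : y ∈ K := by
  refine mem_of_all p hmax ?_
  intro z hz
  set T : Subgroup (alternatingGroup (p.rootSet Ω)) :=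
    ((MulAction.stabilizer Gal(Ω/F) z).map (rho p Ω)).subgroupOf _ with hT
  have hlift := fun σ : alternatingGroup (p.rootSet Ω) =>
    exists_lift p hA K hK (σ : Perm (p.rootSet Ω)) σ.2
  choose l hl1 hl2 using hlift
  have hidx : T.index ≤ R.card := by
    have hinj : Function.Injective
        (fun q : alternatingGroup (p.rootSet Ω) ⧸ T => (⟨l q.out y, hy _ (hl1 _)⟩ : R)) := by
      intro q q' hqq
      have h1 : l q.out y = l q'.out y := congrArg Subtype.val hqq
      have h2 : ((l q.out)⁻¹ * l q'.out) y = y := by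
        have h2' : (l q.out) (((l q.out)⁻¹ * l q'.out) y) = l q.out y := by
          rw [← AlgEquiv.mul_apply, mul_inv_cancel_left, h1]
        exact (l q.out).injective h2'
      have h3 : (l q.out)⁻¹ * l q'.out ∈ K.fixingSubgroup :=
        mul_mem (inv_mem (hl1 _)) (hl1 _)
      have h4 : ((l q.out)⁻¹ * l q'.out) z = z := fix_of_mem hz h3 h2
      have h5 : (q.out)⁻¹ * q'.out ∈ T := by
        refine Subgroup.mem_subgroupOf.mpr ?_
        refine Subgroup.mem_map.mpr ⟨(l q.out)⁻¹ * l q'.out, h4, ?_⟩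
        rw [map_mul, map_inv, hl2, hl2]
        rfl
      have h6 := (QuotientGroup.eq (s := T)).mpr h5
      rwa [QuotientGroup.out_eq', QuotientGroup.out_eq'] at h6
    have h7 := Nat.card_le_card_of_injective _ hinj
    rw [Nat.card_eq_fintype_card (α := R), Fintype.card_coe] at h7
    exact h7
  have htop := alt_top_of_index_lt h5 T (lt_of_le_of_lt hidx hR)
  exact Subgroup.subgroupOf_eq_top.mp htop

theorem mem_of_comm (hA : alternatingGroup (p.rootSet Ω) ≤ (rho p Ω).range)
    (h5 : 5 ≤ Fintype.card (p.rootSet Ω)) {K : IntermediateField F Ω}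
    (hK : K ⊓ rootField p Ω ≤ evenField p Ω)
    (hmax : ∀ K' : IntermediateField F Ω, K ≤ K' → K' ⊓ rootField p Ω ≤ evenField p Ω → K' ≤ K)
    {y : Ω} (hy : ∀ s ∈ K.fixingSubgroup, ∀ t ∈ K.fixingSubgroup, s (t y) = t (s y)) :
    y ∈ K := by
  refine mem_of_all p hmax ?_
  intro z hz
  set T : Subgroup (alternatingGroup (p.rootSet Ω)) :=
    ((MulAction.stabilizer Gal(Ω/F) z).map (rho p Ω)).subgroupOf _ with hT
  have hcomm : commutator (alternatingGroup (p.rootSet Ω)) ≤ T := by
    rw [commutator_eq_closure, Subgroup.closure_le]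
    rintro g ⟨a, b, rfl⟩
    obtain ⟨s, hs, hsa⟩ := exists_lift p hA K hK (a : Perm (p.rootSet Ω)) a.2
    obtain ⟨t, ht, htb⟩ := exists_lift p hA K hK (b : Perm (p.rootSet Ω)) b.2
    have h1 : (s * t * s⁻¹ * t⁻¹) y = y := by
      have h2 := hy s⁻¹ (inv_mem hs) t⁻¹ (inv_mem ht)
      change s (t (s⁻¹ (t⁻¹ y))) = y
      rw [h2]
      have h3 : t (t⁻¹ (s⁻¹ y)) = s⁻¹ y := by
        rw [← AlgEquiv.mul_apply, mul_inv_cancel, AlgEquiv.one_apply]
      rw [h3, ← AlgEquiv.mul_apply, mul_inv_cancel, AlgEquiv.one_apply]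
    have h4 : s * t * s⁻¹ * t⁻¹ ∈ K.fixingSubgroup :=
      mul_mem (mul_mem (mul_mem hs ht) (inv_mem hs)) (inv_mem ht)
    have h5 : (s * t * s⁻¹ * t⁻¹) z = z := fix_of_mem hz h4 h1
    refine Subgroup.mem_subgroupOf.mpr ?_
    refine Subgroup.mem_map.mpr ⟨s * t * s⁻¹ * t⁻¹, h5, ?_⟩
    rw [map_mul, map_mul, map_mul, map_inv, map_inv, hsa, htb]
    rfl
  rw [commutator_alternatingGroup_eq_top (by simpa using h5)] at hcomm
  exact Subgroup.subgroupOf_eq_top.mp (top_le_iff.mp hcomm)

theorem rad_mem (hA : alternatingGroup (p.rootSet Ω) ≤ (rho p Ω).range)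
    (h5 : 5 ≤ Fintype.card (p.rootSet Ω)) {K : IntermediateField F Ω}
    (hK : K ⊓ rootField p Ω ≤ evenField p Ω)
    (hmax : ∀ K' : IntermediateField F Ω, K ≤ K' → K' ⊓ rootField p Ω ≤ evenField p Ω → K' ≤ K)
    (y : Ω) (j : ℕ) (hj : j ≠ 0) (hy : y ^ j ∈ K) : y ∈ K := by
  have hfix : ∀ s ∈ K.fixingSubgroup, ∀ z ∈ K, s z = z := fun s hs z hz =>
    (IntermediateField.mem_fixingSubgroup_iff _ _).mp hs z hz
  have hunity : ∀ u : Ω, u ^ j = 1 → u ∈ K := by
    intro u hu
    refine mem_of_comm p hA h5 hK hmax ?_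
    have hprim : IsPrimitiveRoot u (orderOf u) := IsPrimitiveRoot.orderOf u
    have hpos : 0 < orderOf u := orderOf_pos_iff.mpr
      (isOfFinOrder_iff_pow_eq_one.mpr ⟨j, Nat.pos_of_ne_zero hj, hu⟩)
    have hpow : ∀ s : Gal(Ω/F), ∃ i : ℕ, s u = u ^ i := by
      intro s
      have h1 : (s u) ^ (orderOf u) = 1 := by
        rw [← map_pow, pow_orderOf_eq_one, map_one]
      have : NeZero (orderOf u) := ⟨hpos.ne'⟩
      obtain ⟨i, -, hi⟩ := hprim.eq_pow_of_pow_eq_one h1
      exact ⟨i, hi.symm⟩
    intro s _ t _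
    obtain ⟨a, ha⟩ := hpow s
    obtain ⟨b, hb⟩ := hpow t
    rw [ha, hb, map_pow, map_pow, ha, hb, ← pow_mul, ← pow_mul, mul_comm]
  by_cases hy0 : y = 0
  · rw [hy0]
    exact zero_mem K
  have hquot : ∀ s ∈ K.fixingSubgroup, ∃ u ∈ K, s y = u * y := by
    intro s hs
    refine ⟨s y / y, hunity _ ?_, (div_mul_cancel₀ _ hy0).symm⟩
    rw [div_pow, ← map_pow, hfix s hs _ hy, div_self (pow_ne_zero _ hy0)]
  refine mem_of_comm p hA h5 hK hmax ?_
  intro s hs t ht
  obtain ⟨u, hu, hsu⟩ := hquot s hs
  obtain ⟨v, hv, htv⟩ := hquot t ht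
  rw [hsu, htv, map_mul, map_mul, hsu, htv, hfix s hs v hv, hfix t ht u hu]
  ring

theorem root_mem (hA : alternatingGroup (p.rootSet Ω) ≤ (rho p Ω).range)
    (h5 : 5 ≤ Fintype.card (p.rootSet Ω)) {K : IntermediateField F Ω}
    (hK : K ⊓ rootField p Ω ≤ evenField p Ω)
    (hmax : ∀ K' : IntermediateField F Ω, K ≤ K' → K' ⊓ rootField p Ω ≤ evenField p Ω → K' ≤ K)
    (q : Polynomial Ω) (hq : q ≠ 0) (hdeg : q.natDegree < Fintype.card (p.rootSet Ω))
    (hcoeff : ∀ i, q.coeff i ∈ K) (y : Ω) (hy : q.eval y = 0) : y ∈ K := by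
  classical
  refine mem_of_orbit p hA h5 hK hmax q.roots.toFinset ?_ ?_
  · exact lt_of_le_of_lt ((Multiset.toFinset_card_le _).trans (Polynomial.card_roots' q)) hdeg
  · intro s hs
    rw [Multiset.mem_toFinset, Polynomial.mem_roots hq, Polynomial.IsRoot.def]
    have h1 : q.eval (s y) = s (q.eval y) := by
      rw [Polynomial.eval_eq_sum_range, Polynomial.eval_eq_sum_range, map_sum]
      refine Finset.sum_congr rfl ?_
      intro i _
      rw [map_mul, map_pow,
        (IntermediateField.mem_fixingSubgroup_iff _ _).mp hs _ (hcoeff i)]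
    rw [h1, hy, map_zero]

/-- The main field theoretic statement inside a Galois extension. -/
theorem exists_field (hA : alternatingGroup (p.rootSet Ω) ≤ (rho p Ω).range)
    (h5 : 5 ≤ Fintype.card (p.rootSet Ω)) : ∃ K : IntermediateField F Ω,
    (∀ (y : Ω) (j : ℕ), j ≠ 0 → y ^ j ∈ K → y ∈ K) ∧
    (∀ q : Polynomial Ω, q ≠ 0 → q.natDegree < Fintype.card (p.rootSet Ω) → (∀ i, q.coeff i ∈ K) →
      ∀ y : Ω, q.eval y = 0 → y ∈ K) ∧
    ∀ x ∈ p.rootSet Ω, x ∉ K := by
  obtain ⟨K, hK, hmax⟩ := exists_maximal_good (Ω := Ω) p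
  refine ⟨K, rad_mem p hA h5 hK hmax, root_mem p hA h5 hK hmax, ?_⟩
  intro x hx hxK
  have h1 : x ∈ evenField p Ω :=
    hK ⟨hxK, IntermediateField.subset_adjoin F _ hx⟩
  set x' : p.rootSet Ω := ⟨x, hx⟩ with hx'
  obtain ⟨a, ha⟩ : ∃ a : p.rootSet Ω, a ≠ x' := by
    have h2 : 1 < Fintype.card (p.rootSet Ω) := by omega
    obtain ⟨a, ha⟩ := Fintype.exists_ne_of_one_lt_card h2 x'
    exact ⟨a, ha⟩
  obtain ⟨b, hb⟩ : ∃ b : p.rootSet Ω, b ∉ ({x', a} : Finset (p.rootSet Ω)) := by
    by_contra hcon
    push Not at hcon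
    have h2 : (Finset.univ : Finset (p.rootSet Ω)).card ≤ ({x', a} : Finset _).card :=
      Finset.card_le_card (fun b _ => hcon b)
    have h3 : ({x', a} : Finset (p.rootSet Ω)).card ≤ 2 := Finset.card_le_two
    rw [Finset.card_univ] at h2
    omega
  have hbx : b ≠ x' := fun h => hb (by rw [h]; exact Finset.mem_insert_self _ _)
  have hba : b ≠ a := fun h => hb (by
    rw [h]; exact Finset.mem_insert_of_mem (Finset.mem_singleton_self _))
  have hσ : swap x' a * swap x' b ∈ alternatingGroup (p.rootSet Ω) := by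
    rw [Equiv.Perm.mem_alternatingGroup, map_mul, Equiv.Perm.sign_swap ha.symm,
      Equiv.Perm.sign_swap hbx.symm]
    rfl
  obtain ⟨s, hs⟩ := hA hσ
  have h4 : s x = x := (mem_evenField_iff p x).mp h1 s (by rw [hs]; exact hσ)
  have h5' : ((rho p Ω s x' : p.rootSet Ω) : Ω) = s x := rho_apply p s x'
  rw [hs, Equiv.Perm.mul_apply, Equiv.swap_apply_left, Equiv.swap_apply_of_ne_of_ne hbx hba,
    h4] at h5'
  exact hbx (Subtype.ext h5')

end galois

end Pool.Agent.Lib.MP_ff3579_an.Y
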