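import Pool.Agent.Lib.MP_ff3579_an.Y.Clo

/-!
The closure of the rationals in the complex numbers under roots of all orders and under roots of
polynomials of degree at most `k`, and the numbers which are not in it.
-/

namespace Pool.Agent.Lib.MP_ff3579_an.Y

open Polynomial IntermediateField Equiv

/-- The smallest subfield of the complex numbers that is closed under taking roots of all orders
and under taking roots of nonzero polynomials of degree at most `k`. -/
noncomputable def lowClosure (k : ℕ) : IntermediateField ℚ ℂ :=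
  sInf {K : IntermediateField ℚ ℂ |
    (∀ (x : ℂ) (j : ℕ), j ≠ 0 → x ^ j ∈ K → x ∈ K) ∧
    (∀ q : ℂ[X], q ≠ 0 → q.natDegree ≤ k → (∀ i, q.coeff i ∈ K) →
      ∀ x : ℂ, q.eval x = 0 → x ∈ K)}

theorem rad_mem_lowClosure {k : ℕ} (x : ℂ) (j : ℕ) (hj : j ≠ 0) (h : x ^ j ∈ lowClosure k) :
    x ∈ lowClosure k := by
  unfold lowClosure at h ⊢
  rw [IntermediateField.mem_sInf] at h ⊢
  intro K hK
  exact hK.1 x j hj (h K hK)

theorem root_mem_lowClosure {k : ℕ} (q : ℂ[X]) (hq : q ≠ 0) (hdeg : q.natDegree ≤ k)
    (hcoeff : ∀ i, q.coeff i ∈ lowClosure k) (x : ℂ) (hx : q.eval x = 0) :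
    x ∈ lowClosure k := by
  unfold lowClosure at hcoeff ⊢
  simp only [IntermediateField.mem_sInf] at hcoeff ⊢
  intro K hK
  exact hK.2 q hq hdeg (fun i => hcoeff i K hK) x hx

theorem alternating_le_range {F Ω : Type*} [Field F] [Field Ω] [Algebra F Ω] (p : F[X])
    [Fact ((p.map (algebraMap F Ω)).Splits)] [Normal F Ω] [DecidableEq (p.rootSet Ω)]
    (hsep : p.Separable)
    (hcard : p.natDegree.factorial ≤ 2 * Module.finrank F p.SplittingField) :
    alternatingGroup (p.rootSet Ω) ≤ (rho p Ω).range := by
  have h1 : (rho p Ω).range = (Gal.galActionHom p Ω).range := by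
    unfold rho
    rw [MonoidHom.range_comp, MonoidHom.range_eq_top.mpr (Gal.restrict_surjective p Ω),
      ← MonoidHom.range_eq_map]
  rw [h1]
  refine Equiv.Perm.alternatingGroup_le_of_index_le_two ?_
  have h2 : Nat.card (Gal.galActionHom p Ω).range = Module.finrank F p.SplittingField := by
    rw [← Gal.card_of_separable hsep]
    exact (Nat.card_congr (MonoidHom.ofInjective (Gal.galActionHom_injective p Ω)).toEquiv).symm
  have h3 := (Gal.galActionHom p Ω).range.card_mul_index
  rw [h2, Nat.card_perm, Nat.card_eq_fintype_card,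
    Polynomial.card_rootSet_eq_natDegree hsep Fact.out] at h3
  have hpos : 0 < p.natDegree.factorial := Nat.factorial_pos _
  have h4 : 0 < Module.finrank F p.SplittingField := by
    rcases Nat.eq_zero_or_pos (Module.finrank F p.SplittingField) with h | h
    · rw [h] at hcard
      omega
    · exact h
  rw [← h3] at hcard
  by_contra hcon
  push Not at hcon
  have h5 : Module.finrank F p.SplittingField * 3 ≤
      Module.finrank F p.SplittingField * (Gal.galActionHom p Ω).range.index :=
    Nat.mul_le_mul_left _ hcon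
  omega

/-- General form: for an algebraically closed extension `E` of a field `F` of characteristic zero,
there is an intermediate field closed under roots and roots of polynomials of low degree which
contains no root of `f`. -/
theorem exists_intermediate {F E : Type*} [Field F] [Field E] [Algebra F E] [CharZero F]
    [IsAlgClosed E] (f : F[X]) (hirr : Irreducible f) (h5 : 5 ≤ f.natDegree)
    (hcard : f.natDegree.factorial ≤ 2 * Module.finrank F f.SplittingField) :
    ∃ K' : IntermediateField F E,
      (∀ (x : E) (j : ℕ), j ≠ 0 → x ^ j ∈ K' → x ∈ K') ∧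
      (∀ q : E[X], q ≠ 0 → q.natDegree < f.natDegree → (∀ i, q.coeff i ∈ K') →
        ∀ x : E, q.eval x = 0 → x ∈ K') ∧
      ∀ x : E, aeval x f = 0 → x ∉ K' := by
  classical
  set W : IntermediateField F E := algebraicClosure F E with hW
  have : IsAlgClosure F W := algebraicClosure.isAlgClosure F E
  have : IsAlgClosed W := IsAlgClosure.isAlgClosed F
  have : Algebra.IsAlgebraic F W := IsAlgClosure.isAlgebraic
  have : IsGalois F W := inferInstance
  have : Fact ((f.map (algebraMap F W)).Splits) := ⟨IsAlgClosed.splits _⟩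
  have hsep := hirr.separable
  have : FiniteDimensional F (rootField f W) := by
    unfold rootField
    exact IntermediateField.finiteDimensional_adjoin (fun y _ =>
      (Algebra.IsAlgebraic.isAlgebraic y).isIntegral)
  have hcardroot : Fintype.card (f.rootSet W) = f.natDegree :=
    Polynomial.card_rootSet_eq_natDegree hsep Fact.out
  have hA := alternating_le_range (Ω := W) f hsep hcard
  obtain ⟨K, hK1, hK2, hK3⟩ := exists_field (Ω := W) f hA (by rw [hcardroot]; exact h5)
  rw [hcardroot] at hK2
  have halg : ∀ y : E, IsAlgebraic F y → y ∈ W := fun y hy => mem_algebraicClosure_iff.mpr hy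
  have hmemK' : ∀ y : E, y ∈ K.map W.val ↔ ∃ z ∈ K, (z : E) = y := by
    intro y
    rw [IntermediateField.mem_map]
    rfl
  have hK'alg : ∀ y ∈ K.map W.val, y ∈ W := by
    intro y hy
    obtain ⟨z, -, rfl⟩ := (hmemK' y).mp hy
    exact z.2
  refine ⟨K.map W.val, ?_, ?_, ?_⟩
  · intro y j hj hy
    have hyW : y ∈ W := by
      have h1 : IsAlgebraic F (y ^ j) := mem_algebraicClosure_iff.mp (hK'alg _ hy)
      exact halg y (h1.of_pow (Nat.pos_of_ne_zero hj))
    obtain ⟨z, hz, hzy⟩ := (hmemK' _).mp hy
    refine (hmemK' y).mpr ⟨⟨y, hyW⟩, hK1 ⟨y, hyW⟩ j hj ?_, rfl⟩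
    have h2 : (⟨y, hyW⟩ : W) ^ j = z := Subtype.ext hzy.symm
    rw [h2]
    exact hz
  · intro q hq hdeg hcoeff y hy
    choose c hcK hcq using fun i => (hmemK' (q.coeff i)).mp (hcoeff i)
    set q' : Polynomial W := ∑ i ∈ Finset.range (q.natDegree + 1), C (c i) * X ^ i with hq'
    have hmap : q'.map (algebraMap W E) = q := by
      rw [hq', Polynomial.map_sum]
      conv_rhs => rw [q.as_sum_range_C_mul_X_pow]
      refine Finset.sum_congr rfl ?_
      intro i _
      rw [Polynomial.map_mul, Polynomial.map_pow, Polynomial.map_X, Polynomial.map_C]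
      congr 2
      exact hcq i
    have hq'0 : q' ≠ 0 := by
      intro h0
      rw [h0, Polynomial.map_zero] at hmap
      exact hq hmap.symm
    have hyalg : IsAlgebraic W y := by
      refine ⟨q', hq'0, ?_⟩
      rw [Polynomial.aeval_def, ← Polynomial.eval_map, hmap, hy]
    have hyW : y ∈ W := halg y (IsAlgebraic.restrictScalars F hyalg)
    refine (hmemK' y).mpr ⟨⟨y, hyW⟩, hK2 q' hq'0 ?_ ?_ ⟨y, hyW⟩ ?_, rfl⟩
    · have h3 : q'.natDegree = q.natDegree := by
        rw [← hmap, Polynomial.natDegree_map_eq_of_injective (algebraMap W E).injective]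
      rw [h3]
      exact hdeg
    · intro i
      have h3 : algebraMap W E (q'.coeff i) = q.coeff i := by
        rw [← hmap, Polynomial.coeff_map]
      have h4 : q'.coeff i = c i := by
        refine (algebraMap W E).injective ?_
        rw [h3]
        exact (hcq i).symm
      rw [h4]
      exact hcK i
    · refine (algebraMap W E).injective ?_
      rw [map_zero, ← hy, ← hmap, Polynomial.eval_map]
      exact (Polynomial.eval₂_at_apply (algebraMap W E) (⟨y, hyW⟩ : W)).symm
  · intro x hx hxK
    obtain ⟨z, hz, hzx⟩ := (hmemK' x).mp hxK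
    refine hK3 z ?_ hz
    rw [Polynomial.mem_rootSet]
    refine ⟨hirr.ne_zero, ?_⟩
    refine (algebraMap W E).injective ?_
    rw [map_zero, ← Polynomial.aeval_algebraMap_apply]
    have : algebraMap W E z = x := hzx
    rw [this, hx]

/-- If the Galois group of an irreducible rational polynomial of degree `m >= 5` has order at least
`m!/2`, then its complex roots are not in `lowClosure k` for `k < m`. -/
theorem not_mem_lowClosure (f : ℚ[X]) (hirr : Irreducible f) (h5 : 5 ≤ f.natDegree)
    (hcard : f.natDegree.factorial ≤ 2 * Module.finrank ℚ f.SplittingField)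
    {k : ℕ} (hk : k < f.natDegree) (x : ℂ) (hx : aeval x f = 0) : x ∉ lowClosure k := by
  obtain ⟨K, h1, h2, h3⟩ := exists_intermediate (E := ℂ) f hirr h5 hcard
  intro hmem
  refine h3 x hx ?_
  unfold lowClosure at hmem
  rw [IntermediateField.mem_sInf] at hmem
  exact hmem K ⟨h1, fun q hq hdeg => h2 q hq (lt_of_le_of_lt hdeg hk)⟩

end Pool.Agent.Lib.MP_ff3579_an.Y
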