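import Pool.Agent.Lib.MP_ff3579_an.Y.Dvd
import Pool.Agent.Lib.MP_ff3579_an.X.Final

/-!
For every `N >= 16` there is a prime `r` with `N/2 < 2 r`, `r + 3 <= N/2` which divides the order of
the Galois group of `Zp N`.
-/

set_option autoImplicit false

open Polynomial

namespace Pool.Agent.Lib.MP_ff3579_an.Y

open Pool.Agent.Lib.MP_ff3579_an

/-- A prime between `m/2` and `(2m+1)/3`, small `m`. -/
theorem window_small (m : ℕ) (h1 : 16 ≤ m) (h2 : m < 50746) :
    ∃ r : ℕ, r.Prime ∧ m < 2 * r ∧ 3 * r ≤ 2 * m + 1 := by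
  rcases Nat.lt_or_ge m 22 with h | h
  · exact ⟨11, by norm_num, by omega, by omega⟩
  rcases Nat.lt_or_ge m 26 with h | h
  · exact ⟨13, by norm_num, by omega, by omega⟩
  rcases Nat.lt_or_ge m 34 with h | h
  · exact ⟨17, by norm_num, by omega, by omega⟩
  rcases Nat.lt_or_ge m 46 with h | h
  · exact ⟨23, by norm_num, by omega, by omega⟩
  rcases Nat.lt_or_ge m 62 with h | h
  · exact ⟨31, by norm_num, by omega, by omega⟩
  rcases Nat.lt_or_ge m 82 with h | h
  · exact ⟨41, by norm_num, by omega, by omega⟩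
  rcases Nat.lt_or_ge m 106 with h | h
  · exact ⟨53, by norm_num, by omega, by omega⟩
  rcases Nat.lt_or_ge m 142 with h | h
  · exact ⟨71, by norm_num, by omega, by omega⟩
  rcases Nat.lt_or_ge m 178 with h | h
  · exact ⟨89, by norm_num, by omega, by omega⟩
  rcases Nat.lt_or_ge m 226 with h | h
  · exact ⟨113, by norm_num, by omega, by omega⟩
  rcases Nat.lt_or_ge m 302 with h | h
  · exact ⟨151, by norm_num, by omega, by omega⟩
  rcases Nat.lt_or_ge m 398 with h | h
  · exact ⟨199, by norm_num, by omega, by omega⟩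
  rcases Nat.lt_or_ge m 526 with h | h
  · exact ⟨263, by norm_num, by omega, by omega⟩
  rcases Nat.lt_or_ge m 698 with h | h
  · exact ⟨349, by norm_num, by omega, by omega⟩
  rcases Nat.lt_or_ge m 926 with h | h
  · exact ⟨463, by norm_num, by omega, by omega⟩
  rcases Nat.lt_or_ge m 1234 with h | h
  · exact ⟨617, by norm_num, by omega, by omega⟩
  rcases Nat.lt_or_ge m 1646 with h | h
  · exact ⟨823, by norm_num, by omega, by omega⟩
  rcases Nat.lt_or_ge m 2194 with h | h
  · exact ⟨1097, by norm_num, by omega, by omega⟩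
  rcases Nat.lt_or_ge m 2918 with h | h
  · exact ⟨1459, by norm_num, by omega, by omega⟩
  rcases Nat.lt_or_ge m 3866 with h | h
  · exact ⟨1933, by norm_num, by omega, by omega⟩
  rcases Nat.lt_or_ge m 5114 with h | h
  · exact ⟨2557, by norm_num, by omega, by omega⟩
  rcases Nat.lt_or_ge m 6814 with h | h
  · exact ⟨3407, by norm_num, by omega, by omega⟩
  rcases Nat.lt_or_ge m 9046 with h | h
  · exact ⟨4523, by norm_num, by omega, by omega⟩
  rcases Nat.lt_or_ge m 12058 with h | h
  · exact ⟨6029, by norm_num, by omega, by omega⟩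
  rcases Nat.lt_or_ge m 16078 with h | h
  · exact ⟨8039, by norm_num, by omega, by omega⟩
  rcases Nat.lt_or_ge m 21422 with h | h
  · exact ⟨10711, by norm_num, by omega, by omega⟩
  rcases Nat.lt_or_ge m 28562 with h | h
  · exact ⟨14281, by norm_num, by omega, by omega⟩
  rcases Nat.lt_or_ge m 38074 with h | h
  · exact ⟨19037, by norm_num, by omega, by omega⟩
  exact ⟨25373, by norm_num, by omega, by omega⟩

/-- A prime between `m/2` and `(2m+1)/3`. -/
theorem window (m : ℕ) (h1 : 16 ≤ m) :
    ∃ r : ℕ, r.Prime ∧ m < 2 * r ∧ 3 * r ≤ 2 * m + 1 := by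
  rcases Nat.lt_or_ge m 50746 with h | h
  · exact window_small m h1 h
  · have hM : 25000 ≤ 3 * m / 5 := by omega
    rcases Nat.lt_or_ge (3 * m / 5) (10 ^ 6) with h3 | h3
    · obtain ⟨p, hp, h4, h5⟩ := X.H16.npl (3 * m / 5) hM h3
      exact ⟨p, hp, by omega, by omega⟩
    · obtain ⟨p, hp, h4, h5⟩ := X.H61.npx X.H63.pst (3 * m / 5) h3
      exact ⟨p, hp, by omega, by omega⟩

/-- The case `N >= 32`. -/
theorem large_dvd {N : ℕ} (hN : 32 ≤ N) : ∃ r : ℕ, r.Prime ∧ N / 2 < 2 * r ∧ r + 3 ≤ N / 2 ∧
    r ∣ Module.finrank ℚ ((Zp N).map (Int.castRingHom ℚ)).SplittingField := by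
  obtain ⟨r, hr, h1, h2⟩ := window (N / 2) (by omega)
  have hr2 : r ≠ 2 := by omega
  have hodd : r % 2 = 1 := hr.eq_two_or_odd.resolve_left hr2
  refine ⟨r, hr, h1, by omega, standard_dvd (X.irreducible_Zp N (by omega)) hr hr2 ?_ ?_⟩
  · have h3 : 9 ≤ r := by omega
    have h4 : (N / 2 + 1) * (N / 2 + 1) ≤ (2 * r) * (2 * r) :=
      Nat.mul_le_mul (by omega) (by omega)
    have h5 : 17 * (N / 2 + 1) ≤ (N / 2 + 1) * (N / 2 + 1) :=
      Nat.mul_le_mul_right _ (by omega)
    have h6 : (2 * r) * (2 * r) = 4 * r ^ 2 := by ring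
    omega
  · rcases Nat.lt_or_ge (N / r) 3 with h3 | h3
    · have hge2 : 2 ≤ N / r := (Nat.le_div_iff_mul_le hr.pos).2 (by omega)
      have h4 : N / r = 2 := by omega
      have hdm := Nat.div_add_mod N r
      have hlt := Nat.mod_lt N hr.pos
      rw [h4] at hdm ⊢
      omega
    · omega

theorem dvd_16 : 5 ∣ Module.finrank ℚ ((Zp 16).map (Int.castRingHom ℚ)).SplittingField :=
  explicit_dvd (p := 5) (r := 5) (s := 3) (c := 4) 3 8 (X.irreducible_Zp 16 (by norm_num))
    (by norm_num) (by norm_num) (by norm_num) (by norm_num) (by decide) (by norm_num)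
    (by norm_num) (by norm_num) (by decide) (by decide)

theorem dvd_17 : 5 ∣ Module.finrank ℚ ((Zp 17).map (Int.castRingHom ℚ)).SplittingField :=
  explicit_dvd (p := 5) (r := 5) (s := 3) (c := 4) 3 8 (X.irreducible_Zp 17 (by norm_num))
    (by norm_num) (by norm_num) (by norm_num) (by norm_num) (by decide) (by norm_num)
    (by norm_num) (by norm_num) (by decide) (by decide)

theorem dvd_18 : 5 ∣ Module.finrank ℚ ((Zp 18).map (Int.castRingHom ℚ)).SplittingField :=
  explicit_dvd (p := 5) (r := 5) (s := 3) (c := 4) 3 8 (X.irreducible_Zp 18 (by norm_num))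
    (by norm_num) (by norm_num) (by norm_num) (by norm_num) (by decide) (by norm_num)
    (by norm_num) (by norm_num) (by decide) (by decide)

theorem dvd_19 : 5 ∣ Module.finrank ℚ ((Zp 19).map (Int.castRingHom ℚ)).SplittingField :=
  explicit_dvd (p := 11) (r := 5) (s := 1) (c := 1) 1 6 (X.irreducible_Zp 19 (by norm_num))
    (by norm_num) (by norm_num) (by norm_num) (by norm_num) (by decide) (by norm_num)
    (by norm_num) (by norm_num) (by decide) (by decide)

theorem dvd_25 : 7 ∣ Module.finrank ℚ ((Zp 25).map (Int.castRingHom ℚ)).SplittingField :=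
  explicit_dvd (p := 7) (r := 7) (s := 2) (c := 2) 1 8 (X.irreducible_Zp 25 (by norm_num))
    (by norm_num) (by norm_num) (by norm_num) (by norm_num) (by decide) (by norm_num)
    (by norm_num) (by norm_num) (by decide) (by decide)

theorem dvd_26 : 7 ∣ Module.finrank ℚ ((Zp 26).map (Int.castRingHom ℚ)).SplittingField :=
  explicit_dvd (p := 7) (r := 7) (s := 2) (c := 1) 4 11 (X.irreducible_Zp 26 (by norm_num))
    (by norm_num) (by norm_num) (by norm_num) (by norm_num) (by decide) (by norm_num)
    (by norm_num) (by norm_num) (by decide) (by decide)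

theorem dvd_27 : 7 ∣ Module.finrank ℚ ((Zp 27).map (Int.castRingHom ℚ)).SplittingField :=
  explicit_dvd (p := 7) (r := 7) (s := 2) (c := 0) 0 7 (X.irreducible_Zp 27 (by norm_num))
    (by norm_num) (by norm_num) (by norm_num) (by norm_num) (by decide) (by norm_num)
    (by norm_num) (by norm_num) (by decide) (by decide)

theorem dvd_29 : 11 ∣ Module.finrank ℚ ((Zp 29).map (Int.castRingHom ℚ)).SplittingField :=
  explicit_dvd (p := 23) (r := 11) (s := 1) (c := 3) 3 14 (X.irreducible_Zp 29 (by norm_num))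
    (by norm_num) (by norm_num) (by norm_num) (by norm_num) (by decide) (by norm_num)
    (by norm_num) (by norm_num) (by decide) (by decide)

theorem dvd_31 : 11 ∣ Module.finrank ℚ ((Zp 31).map (Int.castRingHom ℚ)).SplittingField :=
  explicit_dvd (p := 23) (r := 11) (s := 1) (c := 4) 4 15 (X.irreducible_Zp 31 (by norm_num))
    (by norm_num) (by norm_num) (by norm_num) (by norm_num) (by decide) (by norm_num)
    (by norm_num) (by norm_num) (by decide) (by decide)

theorem dvd_20 : 7 ∣ Module.finrank ℚ ((Zp 20).map (Int.castRingHom ℚ)).SplittingField :=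
  standard_dvd (X.irreducible_Zp 20 (by norm_num)) (by norm_num) (by norm_num) (by norm_num)
    (by decide)

theorem dvd_21 : 7 ∣ Module.finrank ℚ ((Zp 21).map (Int.castRingHom ℚ)).SplittingField :=
  standard_dvd (X.irreducible_Zp 21 (by norm_num)) (by norm_num) (by norm_num) (by norm_num)
    (by decide)

theorem dvd_22 : 7 ∣ Module.finrank ℚ ((Zp 22).map (Int.castRingHom ℚ)).SplittingField :=
  standard_dvd (X.irreducible_Zp 22 (by norm_num)) (by norm_num) (by norm_num) (by norm_num)
    (by decide)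

theorem dvd_23 : 7 ∣ Module.finrank ℚ ((Zp 23).map (Int.castRingHom ℚ)).SplittingField :=
  standard_dvd (X.irreducible_Zp 23 (by norm_num)) (by norm_num) (by norm_num) (by norm_num)
    (by decide)

theorem dvd_24 : 7 ∣ Module.finrank ℚ ((Zp 24).map (Int.castRingHom ℚ)).SplittingField :=
  standard_dvd (X.irreducible_Zp 24 (by norm_num)) (by norm_num) (by norm_num) (by norm_num)
    (by decide)

theorem dvd_28 : 11 ∣ Module.finrank ℚ ((Zp 28).map (Int.castRingHom ℚ)).SplittingField :=
  standard_dvd (X.irreducible_Zp 28 (by norm_num)) (by norm_num) (by norm_num) (by norm_num)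
    (by decide)

theorem dvd_30 : 11 ∣ Module.finrank ℚ ((Zp 30).map (Int.castRingHom ℚ)).SplittingField :=
  standard_dvd (X.irreducible_Zp 30 (by norm_num)) (by norm_num) (by norm_num) (by norm_num)
    (by decide)

/-- For every `N >= 16` some prime in the Jordan range divides the order of the Galois group. -/
theorem exists_prime_dvd {N : ℕ} (hN : 16 ≤ N) : ∃ r : ℕ, r.Prime ∧ N / 2 < 2 * r ∧
    r + 3 ≤ N / 2 ∧
    r ∣ Module.finrank ℚ ((Zp N).map (Int.castRingHom ℚ)).SplittingField := by
  rcases Nat.lt_or_ge N 32 with h | h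
  · interval_cases N
    · exact ⟨5, by norm_num, by norm_num, by norm_num, dvd_16⟩
    · exact ⟨5, by norm_num, by norm_num, by norm_num, dvd_17⟩
    · exact ⟨5, by norm_num, by norm_num, by norm_num, dvd_18⟩
    · exact ⟨5, by norm_num, by norm_num, by norm_num, dvd_19⟩
    · exact ⟨7, by norm_num, by norm_num, by norm_num, dvd_20⟩
    · exact ⟨7, by norm_num, by norm_num, by norm_num, dvd_21⟩
    · exact ⟨7, by norm_num, by norm_num, by norm_num, dvd_22⟩
    · exact ⟨7, by norm_num, by norm_num, by norm_num, dvd_23⟩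
    · exact ⟨7, by norm_num, by norm_num, by norm_num, dvd_24⟩
    · exact ⟨7, by norm_num, by norm_num, by norm_num, dvd_25⟩
    · exact ⟨7, by norm_num, by norm_num, by norm_num, dvd_26⟩
    · exact ⟨7, by norm_num, by norm_num, by norm_num, dvd_27⟩
    · exact ⟨11, by norm_num, by norm_num, by norm_num, dvd_28⟩
    · exact ⟨11, by norm_num, by norm_num, by norm_num, dvd_29⟩
    · exact ⟨11, by norm_num, by norm_num, by norm_num, dvd_30⟩
    · exact ⟨11, by norm_num, by norm_num, by norm_num, dvd_31⟩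
  · exact large_dvd h

end Pool.Agent.Lib.MP_ff3579_an.Y
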