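import Pool.Agent.Lib.MP_ff3579_an.Primes
import Pool.Agent.Lib.MP_ff3579_an.X.Iface

/-!
Large primes dividing the order of the Galois group of `Zp N`, for `N >= 16`.
-/

set_option autoImplicit false

open Polynomial

namespace Pool.Agent.Lib.MP_ff3579_an.Y

open Pool.Agent.Lib.MP_ff3579_an

/-- The divisibility criterion: a slope with denominator `r`. -/
theorem criterion_dvd {N p r s c : ℕ} (hirr : Irreducible (Zp N)) (hp : p.Prime)
    (hr : r.Prime) (hs : ¬ r ∣ s) (hN : 2 * N < p ^ 3)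
    (hM : ∀ j, 2 * j ≤ N → s * j + r * (lg p (2 * j) + lg p (N - 2 * j)) ≤
      r * lg p (N + 2 * j) + c)
    {j₁ j₂ : ℕ} (hne : j₁ ≠ j₂) (hj₁ : 2 * j₁ ≤ N) (hj₂ : 2 * j₂ ≤ N)
    (h1 : s * j₁ + r * (lg p (2 * j₁) + lg p (N - 2 * j₁)) = r * lg p (N + 2 * j₁) + c)
    (h2 : s * j₂ + r * (lg p (2 * j₂) + lg p (N - 2 * j₂)) = r * lg p (N + 2 * j₂) + c) :
    r ∣ Module.finrank ℚ ((Zp N).map (Int.castRingHom ℚ)).SplittingField := by
  set g := (Zp N).map (Int.castRingHom ℚ) with hg
  have hgirr : Irreducible g := by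
    have := ((Zp_monic N).irreducible_iff_irreducible_map_fraction_map (K := ℚ)).1 hirr
    rwa [algebraMap_int_eq] at this
  have hgal := @IsGalois.of_separable_splitting_field ℚ _ g.SplittingField _ _ g
    (IsSplittingField.splittingField g) hgirr.separable
  refine @Zp_prime_dvd' g.SplittingField _ _ hgal
    (@IsSplittingField.finiteDimensional ℚ g.SplittingField _ _ _ g
      (IsSplittingField.splittingField g)) N ?_ p r s c hp hr hs hN hM j₁ j₂ hne
    hj₁ hj₂ h1 h2
  have h3 := SplittingField.splits g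
  rw [hg, Polynomial.map_map] at h3
  have h4 : Int.castRingHom g.SplittingField =
    (algebraMap ℚ (map (Int.castRingHom ℚ) (Zp N)).SplittingField).comp (Int.castRingHom ℚ) :=
    RingHom.ext_int _ _
  rw [h4]
  exact h3

/-- The standard supporting line at a prime `r` with `2N < r^2`. -/
theorem standard_dvd {N r : ℕ} (hirr : Irreducible (Zp N)) (hr : r.Prime) (hr2 : r ≠ 2)
    (hN : 2 * N < r ^ 2) (hK : min (N % r) (r - 1 - N % r) % 2 + 2 ≤ N / r) :
    r ∣ Module.finrank ℚ ((Zp N).map (Int.castRingHom ℚ)).SplittingField := by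
  have hrpos : 0 < r := hr.pos
  have hlg : ∀ x, x ≤ 2 * N → lg r x = x / r := by
    intro x hx
    unfold lg
    rw [Nat.div_eq_of_lt (show x < r ^ 2 by omega), add_zero]
  have hodd : r % 2 = 1 := hr.eq_two_or_odd.resolve_left hr2
  set ρ := N % r with hρ
  set u := min ρ (r - 1 - ρ) with hu
  have hρr : ρ < r := Nat.mod_lt _ hrpos
  have hu1 : u ≤ ρ := min_le_left _ _
  have hu2 : u ≤ r - 1 - ρ := min_le_right _ _
  have hNr : r * (N / r) + ρ = N := Nat.div_add_mod N r
  have hr23 : r ^ 2 ≤ r ^ 3 := Nat.pow_le_pow_right hrpos (by norm_num)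
  have h2r : ¬ r ∣ 2 := by
    intro h
    have := (Nat.prime_dvd_prime_iff_eq hr Nat.prime_two).1 h
    exact hr2 this
  -- the lower bound
  have hM : ∀ j, 2 * j ≤ N → 2 * j + r * (lg r (2 * j) + lg r (N - 2 * j)) ≤
      r * lg r (N + 2 * j) + u := by
    intro j hj
    rw [hlg _ (by omega), hlg _ (by omega), hlg _ (by omega)]
    set a := 2 * j with ha
    have e1 := Nat.div_add_mod a r
    have e2 := Nat.div_add_mod (N - a) r
    have e3 := Nat.div_add_mod (N + a) r
    have l1 := Nat.mod_lt a hrpos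
    have l2 := Nat.mod_lt (N - a) hrpos
    have l3 := Nat.mod_lt (N + a) hrpos
    have m1 : ((N - a) % r + a % r) % r = ρ := by
      rw [← Nat.add_mod, Nat.sub_add_cancel hj]
    have m2 : (ρ + a % r) % r = (N + a) % r := by
      rw [hρ, ← Nat.add_mod]
    have e4 : (N - a) % r + a % r = ρ ∨ (N - a) % r + a % r = ρ + r := by
      rcases Nat.lt_or_ge ((N - a) % r + a % r) r with h | h
      · left
        have h' := Nat.mod_eq_of_lt h
        omega
      · right
        have h' : ((N - a) % r + a % r) % r = (N - a) % r + a % r - r := by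
          rw [Nat.mod_eq_sub_mod h]; exact Nat.mod_eq_of_lt (by omega)
        omega
    have e5 : ρ + a % r = (N + a) % r ∨ ρ + a % r = (N + a) % r + r := by
      rcases Nat.lt_or_ge (ρ + a % r) r with h | h
      · left
        have h' := Nat.mod_eq_of_lt h
        omega
      · right
        have h' : (ρ + a % r) % r = ρ + a % r - r := by
          rw [Nat.mod_eq_sub_mod h]; exact Nat.mod_eq_of_lt (by omega)
        omega
    rw [mul_add]
    have hu3 : u = ρ ∨ u = r - 1 - ρ := by omega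
    omega
  have hE : ∀ j k, 2 * j = r * k + u → 2 * j ≤ N → 2 * j + r * (lg r (2 * j) + lg r (N - 2 * j)) =
      r * lg r (N + 2 * j) + u := by
    intro j k hjk hj
    rw [hlg _ (by omega), hlg _ (by omega), hlg _ (by omega), hjk]
    have hkK : k ≤ N / r := by
      have h1 : r * k ≤ N := by omega
      exact (Nat.le_div_iff_mul_le hrpos).2 (by rw [mul_comm]; exact h1)
    obtain ⟨d, hd⟩ := Nat.exists_eq_add_of_le hkK
    have hNd : N = r * k + r * d + ρ := by
      rw [← mul_add, ← hd]; exact hNr.symm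
    have d1 : (r * k + u) / r = k := by
      rw [Nat.mul_add_div hrpos, Nat.div_eq_of_lt (by omega), add_zero]
    have d2 : (N - (r * k + u)) / r = d := by
      have : N - (r * k + u) = r * d + (ρ - u) := by omega
      rw [this, Nat.mul_add_div hrpos, Nat.div_eq_of_lt (by omega), add_zero]
    have d3 : (N + (r * k + u)) / r = d + 2 * k := by
      have : N + (r * k + u) = r * (d + 2 * k) + (ρ + u) := by rw [mul_add, ← mul_assoc, mul_comm r 2, mul_assoc]; omega
      rw [this, Nat.mul_add_div hrpos, Nat.div_eq_of_lt (by omega), add_zero]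
    rw [d1, d2, d3, mul_add, mul_add, ← mul_assoc, mul_comm r 2, mul_assoc]
    omega
  -- the two points
  have hKr : r * (u % 2 + 2) ≤ r * (N / r) := Nat.mul_le_mul_left _ hK
  rcases Nat.mod_two_eq_zero_or_one u with h0 | h1
  · rw [h0] at hKr
    obtain ⟨j, hj⟩ : ∃ j, 2 * j = r * 0 + u := ⟨u / 2, by omega⟩
    have hj2 : 2 * (j + r) = r * 2 + u := by omega
    exact criterion_dvd hirr hr hr h2r (by omega) hM (j₁ := j) (j₂ := j + r) (by omega) (by omega)
      (by omega) (hE j 0 hj (by omega)) (hE (j + r) 2 hj2 (by omega))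
  · rw [h1] at hKr
    obtain ⟨j, hj⟩ : ∃ j, 2 * j = r * 1 + u := ⟨(r + u) / 2, by omega⟩
    have hj2 : 2 * (j + r) = r * 3 + u := by omega
    exact criterion_dvd hirr hr hr h2r (by omega) hM (j₁ := j) (j₂ := j + r) (by omega) (by omega)
      (by omega) (hE j 1 hj (by omega)) (hE (j + r) 3 hj2 (by omega))


/-- Explicit form for small `N`. -/
lemma explicit_dvd {N p r s c : ℕ} (j₁ j₂ : ℕ) (hirr : Irreducible (Zp N)) (hp : p.Prime)
    (hr : r.Prime) (hs : ¬ r ∣ s) (hN : 2 * N < p ^ 3)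
    (hM : ∀ j < N / 2 + 1, s * j + r * (lg p (2 * j) + lg p (N - 2 * j)) ≤
      r * lg p (N + 2 * j) + c)
    (hne : j₁ ≠ j₂) (hj₁ : 2 * j₁ ≤ N) (hj₂ : 2 * j₂ ≤ N)
    (h1 : s * j₁ + r * (lg p (2 * j₁) + lg p (N - 2 * j₁)) = r * lg p (N + 2 * j₁) + c)
    (h2 : s * j₂ + r * (lg p (2 * j₂) + lg p (N - 2 * j₂)) = r * lg p (N + 2 * j₂) + c) :
    r ∣ Module.finrank ℚ ((Zp N).map (Int.castRingHom ℚ)).SplittingField :=
  criterion_dvd hirr hp hr hs hN (fun j hj => hM j (by omega)) hne hj₁ hj₂ h1 h2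

end Pool.Agent.Lib.MP_ff3579_an.Y
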