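import Mathlib

/-! Multiplication by a nonzero rational number does not change the Galois group of the minimal
polynomial. -/

namespace Pool.Agent.Lib.MP_ff3579_an.Y

open Polynomial

variable {F E : Type*} [Field F] [Field E] [Algebra F E]

theorem minpoly_dvd_comp {y : E} (a : F) (ha : a ≠ 0) :
    minpoly F (algebraMap F E a * y) ∣ (minpoly F y).comp (C a⁻¹ * X) := by
  apply minpoly.dvd
  rw [aeval_comp]
  have h1 : aeval (algebraMap F E a * y) (C a⁻¹ * X) = y := by
    have h2 : algebraMap F E a ≠ 0 := by
      rw [Ne, map_eq_zero]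
      exact ha
    simp only [map_mul, aeval_C, aeval_X, map_inv₀]
    field_simp
  rw [h1, minpoly.aeval]

theorem root_scale {L : Type*} [Field L] [Algebra F L] {y : E} (a : F) (ha : a ≠ 0) {z : L}
    (hz : aeval z (minpoly F (algebraMap F E a * y)) = 0) :
    aeval (algebraMap F L a⁻¹ * z) (minpoly F y) = 0 := by
  obtain ⟨g, hg⟩ := minpoly_dvd_comp (F := F) (y := y) a ha
  have h1 := congrArg (aeval z) hg
  have h2 : aeval z (C a⁻¹ * X) = algebraMap F L a⁻¹ * z := by simp
  rw [aeval_comp, h2, map_mul (aeval z), hz, zero_mul] at h1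
  exact h1

theorem splits_scale {L : Type*} [Field L] [Algebra F L] {y : E} (a : F) (ha : a ≠ 0)
    (hy : IsIntegral F y)
    (hs : ((minpoly F (algebraMap F E a * y)).map (algebraMap F L)).Splits) :
    ((minpoly F y).map (algebraMap F L)).Splits := by
  have h1 : minpoly F y ∣ (minpoly F (algebraMap F E a * y)).comp (C a * X) := by
    apply minpoly.dvd
    rw [aeval_comp]
    simp
  have hint : IsIntegral F (algebraMap F E a * y) := isIntegral_algebraMap.mul hy
  have haL : algebraMap F L a ≠ 0 := by
    rw [Ne, map_eq_zero]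
    exact ha
  have h2 : (((minpoly F (algebraMap F E a * y)).comp (C a * X)).map (algebraMap F L)).Splits := by
    rw [Polynomial.map_comp, Polynomial.map_mul, Polynomial.map_C, Polynomial.map_X]
    refine hs.comp_of_natDegree_le_one_of_invertible ?_ ?_
    · exact (natDegree_C_mul_X _ haL).le
    · rw [leadingCoeff_C_mul_X]
      exact invertibleOfNonzero haL
  refine h2.of_dvd ?_ (Polynomial.map_dvd _ h1)
  rw [Ne, Polynomial.map_eq_zero]
  intro h0
  have h3 := congrArg (fun q => q.comp (C a⁻¹ * X)) h0
  simp only [comp_assoc, zero_comp] at h3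
  have h4 : (C a * X : F[X]).comp (C a⁻¹ * X) = X := by
    rw [mul_comp, C_comp, X_comp, ← mul_assoc, ← C_mul, mul_inv_cancel₀ ha, C_1, one_mul]
  rw [h4, comp_X] at h3
  exact minpoly.ne_zero hint h3

theorem isSplittingField_scale {y : E} (a : F) (ha : a ≠ 0) (hy : IsIntegral F y) :
    IsSplittingField F (minpoly F (algebraMap F E a * y)).SplittingField (minpoly F y) := by
  set p := minpoly F (algebraMap F E a * y) with hp
  refine ⟨splits_scale a ha hy (SplittingField.splits p), ?_⟩
  rw [eq_top_iff, ← SplittingField.adjoin_rootSet p]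
  refine Algebra.adjoin_le ?_
  intro z hz
  have hz2 : aeval z p = 0 := (mem_rootSet.mp hz).2
  have h1 : algebraMap F p.SplittingField a⁻¹ * z ∈ (minpoly F y).rootSet p.SplittingField := by
    rw [mem_rootSet]
    exact ⟨minpoly.ne_zero hy, root_scale a ha hz2⟩
  have h2 : z = a • (algebraMap F p.SplittingField a⁻¹ * z) := by
    rw [Algebra.smul_def, ← mul_assoc, ← map_mul, mul_inv_cancel₀ ha, map_one, one_mul]
  rw [h2]
  exact Subalgebra.smul_mem _ (Algebra.subset_adjoin h1) a

theorem finrank_scale {y : E} (a : F) (ha : a ≠ 0) (hy : IsIntegral F y) :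
    Module.finrank F (minpoly F (algebraMap F E a * y)).SplittingField =
      Module.finrank F (minpoly F y).SplittingField := by
  have := isSplittingField_scale a ha hy
  exact (IsSplittingField.algEquiv (minpoly F (algebraMap F E a * y)).SplittingField
    (minpoly F y)).toLinearEquiv.finrank_eq

theorem card_gal_scale [CharZero F] {y : E} (a : F) (ha : a ≠ 0) (hy : IsIntegral F y) :
    Nat.card (minpoly F y).Gal =
      Module.finrank F (minpoly F (algebraMap F E a * y)).SplittingField := by
  rw [finrank_scale a ha hy, Gal.card_of_separable (minpoly.irreducible hy).separable]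

end Pool.Agent.Lib.MP_ff3579_an.Y
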