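import Pool.Agent.Lib.MP_ff3579_an.Y.Small
import Pool.Agent.Lib.MP_ff3579_an.Y.CloC
import Pool.Agent.Lib.MP_ff3579_an.Y.Scale

/-!
The sharp constant `C(n,2)` satisfies no simpler equation: for `n >= 9` it cannot be obtained from
rational numbers by field operations, roots of all orders and roots of polynomials of degree smaller
than the degree `(n+1)/2` of its square.
-/

set_option autoImplicit false

open Polynomial

namespace Pool.Agent.Lib.MP_ff3579_an.Y

open Pool.Agent.Lib.MP_ff3579_an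

/-- For every `N >= 10` the Galois group of `Zp N` has at least `(N/2)!/2` elements. -/
theorem large_all (N : ℕ) (hN : 10 ≤ N) : Large N := by
  rcases Nat.lt_or_ge N 16 with h | h
  · interval_cases N
    · exact large_10
    · exact large_11
    · exact large_12
    · exact large_13
    · exact large_14
    · exact large_15
  · obtain ⟨r, hr, h1, h2, h3⟩ := exists_prime_dvd h
    exact large_of_prime_dvd (Zp_monic N) (X.irreducible_Zp N (by omega)) hr
      (by rw [Zp_natDegree]; exact h1) (by rw [Zp_natDegree]; exact h2) h3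

theorem aeval_complex {n : ℕ} (hn : 1 ≤ n) :
    aeval (4 * ((markovConst n 2 : ℝ) : ℂ) ^ 2) (Zp (n + 1)) = 0 := by
  have h1 := (aeval_markovConst hn).1
  have h2 := congrArg (fun x : ℝ => (x : ℂ)) h1
  simp only [Complex.ofReal_zero] at h2
  rw [← h2, ← Complex.coe_algebraMap, ← aeval_algebraMap_apply]
  congr 1
  simp

theorem natCast_mem_lowClosure (k a : ℕ) : (a : ℂ) ∈ lowClosure k := natCast_mem (lowClosure k) a

theorem intCast_mem_lowClosure (k : ℕ) (a : ℤ) : (a : ℂ) ∈ lowClosure k :=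
  intCast_mem (lowClosure k) a

theorem not_mem_of_lt {n k : ℕ} (hn : 9 ≤ n) (hk : k < (n + 1) / 2) :
    ((markovConst n 2 : ℝ) : ℂ) ∉ lowClosure k := by
  intro hmem
  have hdeg : ((Zp (n + 1)).map (Int.castRingHom ℚ)).natDegree = (n + 1) / 2 := by
    rw [(Zp_monic (n + 1)).natDegree_map, Zp_natDegree]
  refine not_mem_lowClosure ((Zp (n + 1)).map (Int.castRingHom ℚ))
    (irreducible_map (Zp_monic _) (X.irreducible_Zp _ (by omega))) (by rw [hdeg]; omega)
    (large_all (n + 1) (by omega)) (k := k) (by rw [hdeg]; exact hk)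
    (4 * ((markovConst n 2 : ℝ) : ℂ) ^ 2) ?_ ?_
  · rw [← algebraMap_int_eq, aeval_map_algebraMap]
    exact aeval_complex (by omega)
  · exact mul_mem (natCast_mem_lowClosure k 4) (pow_mem hmem 2)

theorem solvableByRad_le (k : ℕ) : solvableByRad ℚ ℂ ≤ lowClosure k := by
  unfold solvableByRad lowClosure
  refine sInf_le_sInf ?_
  rintro K ⟨hK, -⟩ x j hj hx
  exact hK x j hj hx

theorem mem_of_le {n k : ℕ} (hn : 1 ≤ n) (hk : (n + 1) / 2 ≤ k) :
    ((markovConst n 2 : ℝ) : ℂ) ∈ lowClosure k := by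
  have h1 : (4 * ((markovConst n 2 : ℝ) : ℂ) ^ 2) ∈ lowClosure k := by
    refine root_mem_lowClosure ((Zp (n + 1)).map (Int.castRingHom ℂ))
      ((Zp_monic _).map _).ne_zero ?_ ?_ _ ?_
    · rw [(Zp_monic (n + 1)).natDegree_map, Zp_natDegree]
      exact hk
    · intro i
      rw [coeff_map]
      exact intCast_mem_lowClosure k _
    · have := aeval_complex hn
      rwa [aeval_def, algebraMap_int_eq, ← eval_map] at this
  have h2 : ((markovConst n 2 : ℝ) : ℂ) ^ 2 ∈ lowClosure k := by
    have h3 : ((markovConst n 2 : ℝ) : ℂ) ^ 2 =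
        (4 * ((markovConst n 2 : ℝ) : ℂ) ^ 2) / ((4 : ℕ) : ℂ) := by
      push_cast
      ring
    rw [h3]
    exact div_mem h1 (natCast_mem_lowClosure k 4)
  exact rad_mem_lowClosure _ 2 (by norm_num) h2

theorem final (n k : ℕ) (hn : 1 ≤ n) :
    ((markovConst n 2 : ℝ) : ℂ) ∈ lowClosure k ↔ n ≤ 8 ∨ (n + 1) / 2 ≤ k := by
  constructor
  · intro h
    by_contra hcon
    push Not at hcon
    exact not_mem_of_lt (by omega) (by omega) h
  · rintro (h | h)
    · exact solvableByRad_le k (((X.final n hn).2).mpr h)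
    · exact mem_of_le hn h

/-- The Galois group of the minimal polynomial of `C(n,2)^2` is the symmetric or the alternating
group of degree `(n+1)/2` for `n >= 9`: its order is at least half of a factorial. -/
theorem card_gal (n : ℕ) (hn : 9 ≤ n) :
    ((n + 1) / 2).factorial ≤ 2 * Nat.card (minpoly ℚ (markovConst n 2 ^ 2)).Gal := by
  have hgirr : Irreducible ((Zp (n + 1)).map (Int.castRingHom ℚ)) :=
    irreducible_map (Zp_monic _) (X.irreducible_Zp _ (by omega))
  have h1 := (aeval_markovConst (n := n) (by omega)).1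
  have h2 : aeval (algebraMap ℚ ℝ 4 * markovConst n 2 ^ 2)
      ((Zp (n + 1)).map (Int.castRingHom ℚ)) = 0 := by
    rw [← algebraMap_int_eq, aeval_map_algebraMap]
    have h4 : algebraMap ℚ ℝ 4 = 4 := by simp
    rw [h4]
    exact h1
  have h3 : minpoly ℚ (algebraMap ℚ ℝ 4 * markovConst n 2 ^ 2) =
      (Zp (n + 1)).map (Int.castRingHom ℚ) :=
    (minpoly.eq_of_irreducible_of_monic hgirr h2 ((Zp_monic _).map _)).symm
  have hint : IsIntegral ℚ (algebraMap ℚ ℝ 4 * markovConst n 2 ^ 2) :=
    ⟨_, (Zp_monic (n + 1)).map _, h2⟩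
  have hint' : IsIntegral ℚ (markovConst n 2 ^ 2) := by
    have h4 : markovConst n 2 ^ 2 =
        algebraMap ℚ ℝ (1 / 4) * (algebraMap ℚ ℝ 4 * markovConst n 2 ^ 2) := by
      rw [← mul_assoc, ← map_mul]
      norm_num
    rw [h4]
    exact isIntegral_algebraMap.mul hint
  rw [card_gal_scale (F := ℚ) (4 : ℚ) (by norm_num) hint', h3]
  have h5 := large_all (n + 1) (by omega)
  unfold Large at h5
  rwa [(Zp_monic (n + 1)).natDegree_map, Zp_natDegree] at h5

end Pool.Agent.Lib.MP_ff3579_an.Y
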