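import Mathlib

/-!
A transitive permutation group of degree `m` whose order is divisible by a prime `r` with
`m < 2 r` and `r + 3 <= m` contains the alternating group.  This is a special case of a theorem
of Jordan (1873), which Mathlib only states; the proof uses the multiple primitivity criterion of
Jordan that is in Mathlib and the Frattini argument.
-/

namespace Pool.Agent.Lib.MP_ff3579_an.Y

open MulAction Equiv Equiv.Perm Subgroup

/-- Two cyclic subgroups of prime order `r` are conjugate when `r ^ 2` does not divide the order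
of the group. -/
theorem exists_conj_mem_zpowers {K : Type*} [Group K] [Finite K] {r : ℕ} [hr : Fact r.Prime]
    (h2 : ¬ r ^ 2 ∣ Nat.card K) {g g' : K} (hg : orderOf g = r) (hg' : orderOf g' = r) :
    ∃ u : K, u * g' * u⁻¹ ∈ zpowers g := by
  have hfac : (Nat.card K).factorization r = 1 := by
    have h0 : Nat.card K ≠ 0 := Nat.card_pos.ne'
    refine le_antisymm ?_ ?_
    · by_contra hcon
      push Not at hcon
      exact h2 ((hr.out.pow_dvd_iff_le_factorization h0).mpr hcon)
    · refine (hr.out.dvd_iff_one_le_factorization h0).mp ?_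
      rw [← hg]
      exact orderOf_dvd_natCard g
  have hP : Nat.card (zpowers g) = r ^ (Nat.card K).factorization r := by
    rw [hfac, pow_one, Nat.card_zpowers, hg]
  have hQ : Nat.card (zpowers g') = r ^ (Nat.card K).factorization r := by
    rw [hfac, pow_one, Nat.card_zpowers, hg']
  obtain ⟨u, hu⟩ := MulAction.exists_smul_eq K (Sylow.ofCard (zpowers g') hQ)
    (Sylow.ofCard (zpowers g) hP)
  refine ⟨u, ?_⟩
  have h1 : u * g' * u⁻¹ ∈ ((Sylow.ofCard (zpowers g) hP : Sylow r K) : Subgroup K) := by
    rw [← hu]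
    exact Subgroup.smul_mem_pointwise_smul g' (MulAut.conj u)
      ((Sylow.ofCard (zpowers g') hQ : Sylow r K) : Subgroup K) (mem_zpowers g')
  exact h1

/-- In a `k`-transitive group every permutation agrees on a set of `k` points with an element of
the group. -/
theorem exists_agree {α : Type*} [Finite α] {G : Subgroup (Perm α)} {k : ℕ} {s : Set α}
    (hG : IsMultiplyPretransitive G α k) (hs : s.ncard = k) (σ : Perm α) :
    ∃ h ∈ G, ∀ z ∈ s, h z = σ z := by
  have e : Fin k ≃ s := by
    rw [← hs]
    exact (Finite.equivFinOfCardEq rfl).symm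
  have hx : Function.Injective fun i : Fin k => ((e i : s) : α) :=
    Subtype.val_injective.comp e.injective
  have hy : Function.Injective fun i : Fin k => σ ((e i : s) : α) := σ.injective.comp hx
  obtain ⟨h, hh⟩ := hG.exists_smul_eq (⟨_, hx⟩ : Fin k ↪ α) ⟨_, hy⟩
  refine ⟨h, h.2, fun z hz => ?_⟩
  have h1 := DFunLike.congr_fun hh (e.symm ⟨z, hz⟩)
  have h2 : h • z = σ z := by simpa using h1
  exact h2

theorem not_sq_dvd_factorial {r m : ℕ} (hr : r.Prime) (h : m < 2 * r) :
    ¬ r ^ 2 ∣ m.factorial := by
  induction m with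
  | zero =>
    intro hd
    have h1 : r ^ 2 = 1 := Nat.dvd_one.mp (by simpa using hd)
    have h2 := hr.two_le
    have h3 : 2 ^ 2 ≤ r ^ 2 := Nat.pow_le_pow_left h2 2
    omega
  | succ m ih =>
    intro hd
    rw [Nat.factorial_succ] at hd
    rcases eq_or_ne (m + 1) r with h1 | h1
    · rw [h1, pow_two] at hd
      have h2 : r ∣ m.factorial := Nat.dvd_of_mul_dvd_mul_left hr.pos hd
      rw [hr.dvd_factorial] at h2
      omega
    · have hcop : ¬ r ∣ m + 1 := by
        rintro ⟨c, hc⟩
        have hc2 : c < 2 := by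
          by_contra hcon
          push Not at hcon
          have : r * 2 ≤ r * c := Nat.mul_le_mul_left _ hcon
          omega
        interval_cases c <;> omega
      have h3 : (r ^ 2).Coprime (m + 1) :=
        Nat.Coprime.pow_left _ ((Nat.Prime.coprime_iff_not_dvd hr).mpr hcop)
      exact ih (by omega) (h3.dvd_of_dvd_mul_left hd)

theorem orderOf_mk_conj {K : Type*} [Group K] (h g : K) : orderOf (h * g * h⁻¹) = orderOf g := by
  have := MulEquiv.orderOf_eq (MulAut.conj h) g
  simpa [MulAut.conj_apply] using this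

/-- The Frattini argument: an element of the group normalising the cycle and exchanging two
points outside of it. -/
theorem exists_normalising {α : Type*} [Fintype α] [DecidableEq α] {G : Subgroup (Perm α)}
    {r : ℕ} (hr : r.Prime) (hm : Fintype.card α < 2 * r) {g : Perm α} (hg : g ∈ G)
    (hgr : orderOf g = r)
    (hG : ∀ σ : Perm α, ∃ h ∈ G, ∀ z ∈ (g.support : Set α)ᶜ, h z = σ z)
    {a b : α} (ha : g a = a) (hb : g b = b) :
    ∃ x ∈ G, (∀ z, g z = z → x z = swap a b z) ∧ ∃ i : ℤ, x * g * x⁻¹ = g ^ i := by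
  have hfact : Fact r.Prime := ⟨hr⟩
  obtain ⟨h, hh, hhs⟩ := hG (swap a b)
  have hs : ∀ z, g z = z → h z = swap a b z := by
    intro z hz
    exact hhs z (by simpa using hz)
  have hsw : ∀ z, g z = z → g (swap a b z) = swap a b z := by
    intro z hz
    rcases eq_or_ne z a with h1 | h1
    · rw [h1, swap_apply_left, hb]
    · rcases eq_or_ne z b with h2 | h2
      · rw [h2, swap_apply_right, ha]
      · rw [swap_apply_of_ne_of_ne h1 h2, hz]
  have hinv : ∀ z, g z = z → h⁻¹ z = swap a b z := by
    intro z hz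
    rw [Perm.inv_eq_iff_eq, hs _ (hsw z hz), swap_apply_self]
  set K : Subgroup (Perm α) := G ⊓ fixingSubgroup (Perm α) {z : α | g z = z} with hK
  have memK : ∀ u : Perm α, u ∈ K ↔ u ∈ G ∧ ∀ z, g z = z → u z = z := by
    intro u
    rw [hK, Subgroup.mem_inf, mem_fixingSubgroup_iff]
    exact Iff.rfl
  have h1 : g ∈ K := (memK g).mpr ⟨hg, fun z hz => hz⟩
  have h2 : h * g * h⁻¹ ∈ K := by
    refine (memK _).mpr ⟨G.mul_mem (G.mul_mem hh hg) (G.inv_mem hh), fun z hz => ?_⟩
    rw [Perm.mul_apply, Perm.mul_apply, hinv z hz, hsw z hz, hs _ (hsw z hz), swap_apply_self]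
  have hcard : ¬ r ^ 2 ∣ Nat.card K := by
    intro hd
    refine not_sq_dvd_factorial hr hm (hd.trans ?_)
    have hc := Subgroup.card_subgroup_dvd_card K
    rwa [Nat.card_perm, Nat.card_eq_fintype_card (α := α)] at hc
  have ho1 : orderOf (⟨g, h1⟩ : K) = r := by rw [Subgroup.orderOf_mk, hgr]
  have ho2 : orderOf (⟨h * g * h⁻¹, h2⟩ : K) = r := by
    rw [Subgroup.orderOf_mk, ← hgr]
    exact (orderOf_mk_conj h g)
  obtain ⟨u, hu⟩ := exists_conj_mem_zpowers hcard ho1 ho2
  obtain ⟨i, hi⟩ := Subgroup.mem_zpowers_iff.mp hu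
  have hu2 := (memK (u : Perm α)).mp u.2
  refine ⟨(u : Perm α) * h, G.mul_mem hu2.1 hh, ?_, i, ?_⟩
  · intro z hz
    rw [Perm.mul_apply, hs z hz, hu2.2 _ (hsw z hz)]
  · have h3 := congrArg (Subtype.val) hi
    simp only [Subgroup.coe_zpow, Subgroup.coe_mul, Subgroup.coe_inv] at h3
    rw [h3]
    group

/-- The `3`-cycle. -/
theorem exists_threeCycle {α : Type*} [Fintype α] [DecidableEq α] {G : Subgroup (Perm α)}
    {r : ℕ} (hr : r.Prime) (hr3 : r ≠ 3) {g : Perm α} (hgc : g.IsCycle) (hgr : orderOf g = r)
    {a b c : α} (hab : a ≠ b) (hac : a ≠ c) (hbc : b ≠ c)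
    (ha : g a = a) (hb : g b = b) (hc : g c = c)
    {x y : Perm α} (hx : x ∈ G) (hy : y ∈ G)
    (hxs : ∀ z, g z = z → x z = swap a b z) (hys : ∀ z, g z = z → y z = swap b c z)
    {i j : ℤ} (hxi : x * g * x⁻¹ = g ^ i) (hyj : y * g * y⁻¹ = g ^ j) :
    ∃ w ∈ G, IsThreeCycle w := by
  set t : Perm α := (y * x)⁻¹ * (x * y) with ht
  have htG : t ∈ G := G.mul_mem (G.inv_mem (G.mul_mem hy hx)) (G.mul_mem hx hy)
  -- the commutator commutes with the cycle
  have hcomm : t * g = g * t := by
    have e1 : (x * y) * g * (x * y)⁻¹ = g ^ (j * i) := by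
      have : (x * y) * g * (x * y)⁻¹ = x * (y * g * y⁻¹) * x⁻¹ := by group
      rw [this, hyj, ← conj_zpow, hxi, ← zpow_mul, mul_comm]
    have e2 : (y * x) * g * (y * x)⁻¹ = g ^ (j * i) := by
      have : (y * x) * g * (y * x)⁻¹ = y * (x * g * x⁻¹) * y⁻¹ := by group
      rw [this, hxi, ← conj_zpow, hyj, ← zpow_mul]
    have e3 : (x * y) * g * (x * y)⁻¹ = (y * x) * g * (y * x)⁻¹ := e1.trans e2.symm
    have e4 : t * g = (y * x)⁻¹ * ((x * y) * g * (x * y)⁻¹) * (x * y) := by
      rw [ht]
      group
    have e5 : g * t = (y * x)⁻¹ * ((y * x) * g * (y * x)⁻¹) * (x * y) := by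
      rw [ht]
      group
    rw [e4, e5, e3]
  -- action on the three points
  have hta : t a = c := by
    rw [ht, Perm.mul_apply, Perm.inv_eq_iff_eq, Perm.mul_apply, Perm.mul_apply, hys a ha,
      swap_apply_of_ne_of_ne hab hac, hxs a ha, swap_apply_left, hxs c hc,
      swap_apply_of_ne_of_ne hac.symm hbc.symm, hys c hc, swap_apply_right]
  have htc : t c = b := by
    rw [ht, Perm.mul_apply, Perm.inv_eq_iff_eq, Perm.mul_apply, Perm.mul_apply, hys c hc,
      swap_apply_right, hxs b hb, swap_apply_right, hys a ha,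
      swap_apply_of_ne_of_ne hab hac]
  have htb : t b = a := by
    rw [ht, Perm.mul_apply, Perm.inv_eq_iff_eq, Perm.mul_apply, Perm.mul_apply, hys b hb,
      swap_apply_left, hxs c hc, swap_apply_of_ne_of_ne hac.symm hbc.symm, hxs a ha,
      swap_apply_left, hys b hb, swap_apply_left]
  have htz : ∀ z, g z = z → z ≠ a → z ≠ b → z ≠ c → t z = z := by
    intro z hz h1 h2 h3
    rw [ht, Perm.mul_apply, Perm.inv_eq_iff_eq, Perm.mul_apply, Perm.mul_apply, hys z hz,
      swap_apply_of_ne_of_ne h2 h3, hxs z hz, swap_apply_of_ne_of_ne h1 h2, hys z hz,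
      swap_apply_of_ne_of_ne h2 h3]
  -- action on the support of the cycle
  have hsupp : ∀ z, g z ≠ z → (t ^ r) z = z := by
    intro z hz
    have h1 : g (t z) ≠ t z := by
      intro h
      apply hz
      have : t (g z) = t z := by
        rw [← Perm.mul_apply, hcomm, Perm.mul_apply, h]
      exact t.injective this
    obtain ⟨k, hk⟩ := hgc.sameCycle hz h1
    have hcomm2 : ∀ l : ℤ, Commute t (g ^ l) := fun l => (Commute.zpow_right hcomm l)
    have h2 : ∀ n : ℕ, (t ^ n) z = (g ^ (k * n)) z := by
      intro n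
      induction n with
      | zero => simp
      | succ n ih =>
        rw [pow_succ', Perm.mul_apply, ih, ← Perm.mul_apply, (hcomm2 _).eq, Perm.mul_apply,
          ← hk, ← Perm.mul_apply, ← zpow_add]
        congr 2
        push_cast
        ring
    rw [h2 r, mul_comm, zpow_mul, zpow_natCast, ← hgr, pow_orderOf_eq_one, one_zpow,
      Perm.one_apply]
  have hcop : Nat.Coprime r 3 := (Nat.coprime_primes hr Nat.prime_three).mpr hr3
  have hmove : ∀ z, t z ≠ z → (t ^ 3) z = z → (t ^ r) z ≠ z := by
    intro z h1 h2 h3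
    have e1 : Function.IsPeriodicPt t 3 z := by
      unfold Function.IsPeriodicPt Function.IsFixedPt
      rw [← Perm.iterate_eq_pow] at h2
      exact h2
    have e2 : Function.IsPeriodicPt t r z := by
      unfold Function.IsPeriodicPt Function.IsFixedPt
      rw [← Perm.iterate_eq_pow] at h3
      exact h3
    have e3 := e2.gcd e1
    rw [hcop] at e3
    exact h1 (by simpa [Function.IsPeriodicPt, Function.IsFixedPt] using e3)
  refine ⟨t ^ r, G.pow_mem htG r, ?_⟩
  rw [← card_support_eq_three_iff]
  have hsup : (t ^ r).support = {a, b, c} := by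
    ext z
    rw [Perm.mem_support, Finset.mem_insert, Finset.mem_insert, Finset.mem_singleton]
    constructor
    · intro h
      by_contra hcon
      push Not at hcon
      rcases eq_or_ne (g z) z with h1 | h1
      · apply h
        have h2 := htz z h1 hcon.1 hcon.2.1 hcon.2.2
        have h3 : ∀ n : ℕ, (t ^ n) z = z := by
          intro n
          induction n with
          | zero => simp
          | succ n ih => rw [pow_succ', Perm.mul_apply, ih, h2]
        exact h3 r
      · exact h (hsupp z h1)
    · have h3 : ∀ z, (t ^ 3) z = t (t (t z)) := fun z => rfl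
      rintro (h | h | h)
      · rw [h]
        exact hmove a (by rw [hta]; exact hac.symm) (by rw [h3, hta, htc, htb])
      · rw [h]
        exact hmove b (by rw [htb]; exact hab) (by rw [h3, htb, hta, htc])
      · rw [h]
        exact hmove c (by rw [htc]; exact hbc) (by rw [h3, htc, htb, hta])
  rw [hsup]
  exact Finset.card_eq_three.mpr ⟨a, b, c, hab, hac, hbc, rfl⟩

theorem support_ncard {α : Type*} [Fintype α] [DecidableEq α] {r : ℕ} {g : Perm α}
    (hgc : g.IsCycle) (hgr : orderOf g = r) : g.support.card = r := by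
  rw [← hgc.orderOf, hgr]

/-- The action of the fixing group of the complement of a cycle of prime length. -/
theorem isPreprimitive_fixing {α : Type*} [Fintype α] [DecidableEq α] {G : Subgroup (Perm α)}
    {r : ℕ} (hr : r.Prime) {g : Perm α} (hg : g ∈ G) (hgc : g.IsCycle) (hgr : orderOf g = r) :
    IsPreprimitive (fixingSubgroup G (g.support : Set α)ᶜ)
      (SubMulAction.ofFixingSubgroup G (g.support : Set α)ᶜ) := by
  classical
  have := isPretransitive_of_isCycle_mem hgc hg
  apply IsPreprimitive.of_prime_card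
  convert! hr
  rw [Nat.card_eq_fintype_card, Fintype.card_subtype, ← support_ncard hgc hgr]
  apply congr_arg
  ext x
  simp [SubMulAction.mem_ofFixingSubgroup_iff]

/-- Primitivity. -/
theorem isPreprimitive_of_cycle {α : Type*} [Fintype α] [DecidableEq α] {G : Subgroup (Perm α)}
    (hG : IsPretransitive G α)
    {r : ℕ} (hr : r.Prime) (hm : Fintype.card α < 2 * r) {g : Perm α} (hg : g ∈ G)
    (hgc : g.IsCycle) (hgr : orderOf g = r) : IsPreprimitive G α := by
  have := isPreprimitive_fixing hr hg hgc hgr
  let f : SubMulAction.ofFixingSubgroup G (g.support : Set α)ᶜ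
      →ₑ[(fixingSubgroup G (g.support : Set α)ᶜ).subtype] α :=
    { toFun := Subtype.val
      map_smul' := fun _ _ => rfl }
  refine IsPreprimitive.of_card_lt (f := f) ?_
  have hrange : Set.range f = (g.support : Set α) := by
    ext x
    constructor
    · rintro ⟨y, rfl⟩
      have h1 := y.2
      rw [SubMulAction.mem_ofFixingSubgroup_iff] at h1
      have h2 : (f y : α) = (y : α) := rfl
      rw [h2]
      simpa using h1
    · intro hx
      refine ⟨⟨x, ?_⟩, rfl⟩
      rw [SubMulAction.mem_ofFixingSubgroup_iff]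
      simpa using hx
  rw [hrange, Set.ncard_coe_finset, support_ncard hgc hgr, Nat.card_eq_fintype_card]
  exact hm

/-- A transitive permutation group of degree `m` whose order is divisible by a prime `r` with
`m < 2 r` and `r + 3 <= m` contains the alternating group. -/
theorem alternating_le_of_prime_dvd {α : Type*} [Fintype α] [DecidableEq α]
    {G : Subgroup (Perm α)} (hG : IsPretransitive G α)
    {r : ℕ} (hr : r.Prime) (hm : Fintype.card α < 2 * r) (hr3 : r + 3 ≤ Fintype.card α)
    (hd : r ∣ Nat.card G) : alternatingGroup α ≤ G := by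
  have hfact : Fact r.Prime := ⟨hr⟩
  obtain ⟨⟨g, hg⟩, hgo⟩ := exists_prime_orderOf_dvd_card' (G := G) r hd
  rw [Subgroup.orderOf_mk] at hgo
  have hgc : g.IsCycle := isCycle_of_prime_order' (by rw [hgo]; exact hr) (by rw [hgo]; exact hm)
  have hprim := isPreprimitive_of_cycle hG hr hm hg hgc hgo
  have hcard := support_ncard hgc hgo
  -- the complement of the support
  have hcompl : ((g.support : Set α)ᶜ).ncard = (Fintype.card α - r - 1) + 1 := by
    apply Nat.add_left_cancel (n := (g.support : Set α).ncard)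
    rw [Set.ncard_add_ncard_compl, Set.ncard_coe_finset, hcard, Nat.card_eq_fintype_card]
    omega
  have hmult : IsMultiplyPreprimitive G α (Fintype.card α - r - 1 + 2) := by
    refine hprim.isMultiplyPreprimitive hcompl ?_ (isPreprimitive_fixing hr hg hgc hgo)
    rw [Nat.card_eq_fintype_card]
    have := hr.two_le
    omega
  have hmt : IsMultiplyPretransitive G α (Fintype.card α - r - 1 + 1) := by
    have h1 : IsMultiplyPretransitive G α (Fintype.card α - r - 1 + 2) :=
      IsMultiplyPreprimitive.isMultiplyPretransitive ..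
    refine isMultiplyPretransitive_of_le' (n := Fintype.card α - r - 1 + 2) (by omega) ?_
    rw [ENat.card_eq_coe_fintype_card]
    have := hr.two_le
    exact_mod_cast (by omega : Fintype.card α - r - 1 + 2 ≤ Fintype.card α)
  have hagree := exists_agree hmt hcompl
  -- three points outside of the support
  have h3 : 2 < (g.supportᶜ).card := by
    rw [Finset.card_compl, hcard]
    omega
  obtain ⟨a, b, c, ha, hb, hc, hab, hac, hbc⟩ := Finset.two_lt_card_iff.mp h3
  have ha' : g a = a := by simpa using ha
  have hb' : g b = b := by simpa using hb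
  have hc' : g c = c := by simpa using hc
  obtain ⟨x, hx, hxs, i, hi⟩ := exists_normalising hr hm hg hgo hagree ha' hb'
  obtain ⟨y, hy, hys, j, hj⟩ := exists_normalising hr hm hg hgo hagree hb' hc'
  obtain ⟨w, hw, hw3⟩ := exists_threeCycle hr (by omega) hgc hgo hab hac hbc ha' hb' hc' hx hy
    hxs hys hi hj
  exact alternatingGroup_le_of_isPreprimitive_of_isThreeCycle_mem hprim hw3 hw

end Pool.Agent.Lib.MP_ff3579_an.Y
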