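import Pool.Agent.Lib.MP_ff3579_an.Y.Bridge
import Pool.Agent.Lib.MP_ff3579_an.Y.Div

/-!
The Galois group of `Zp N` contains the alternating group, `10 <= N <= 15`: Frobenius elements.
-/

set_option autoImplicit false
set_option maxRecDepth 100000

open Polynomial

namespace Pool.Agent.Lib.MP_ff3579_an.Y

open Pool.Agent.Lib.MP_ff3579_an

/-- The Galois group of `Zp N` has at least `(N/2)! / 2` elements. -/
def Large (N : ℕ) : Prop := ((Zp N).map (Int.castRingHom ℚ)).natDegree.factorial ≤
  2 * Module.finrank ℚ ((Zp N).map (Int.castRingHom ℚ)).SplittingField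

/-- Computation of `Zp N` modulo `p`. -/
theorem eval_Zp (N p : ℕ) (c : ZMod p) : ((Zp N).map (Int.castRingHom (ZMod p))).eval c =
    ∑ j ∈ Finset.range (N / 2 + 1), (-1) ^ j * (cf N j : ZMod p) * c ^ (N / 2 - j) := by
  unfold Zp
  simp [Polynomial.map_sum, eval_finsetSum]

theorem eval_derivative_Zp (N p : ℕ) (c : ZMod p) :
    ((Zp N).map (Int.castRingHom (ZMod p))).derivative.eval c =
    ∑ j ∈ Finset.range (N / 2 + 1), (-1) ^ j * (cf N j : ZMod p) *
      (((N / 2 - j : ℕ) : ZMod p) * c ^ (N / 2 - j - 1)) := by
  unfold Zp
  rw [Polynomial.map_sum, derivative_sum, eval_finsetSum]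
  refine Finset.sum_congr rfl fun j _ => ?_
  rw [Polynomial.map_mul, Polynomial.map_C, Polynomial.map_pow, Polynomial.map_X,
    derivative_C_mul_X_pow, eval_mul, eval_C, eval_pow, eval_X]
  simp
  ring

/-- The criterion in computable form. -/
theorem large_of {N p : ℕ} (hN : 2 ≤ N) (hp : p.Prime) [NeZero p] (P P' : ZMod p → ZMod p)
    (hP : ∀ c, P c = ∑ j ∈ Finset.range (N / 2 + 1), (-1) ^ j * (cf N j : ZMod p) *
      c ^ (N / 2 - j))
    (hP' : ∀ c, P' c = ∑ j ∈ Finset.range (N / 2 + 1), (-1) ^ j * (cf N j : ZMod p) *
      (((N / 2 - j : ℕ) : ZMod p) * c ^ (N / 2 - j - 1)))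
    (hsimple : ∀ c, P c = 0 → P' c ≠ 0)
    (hcard : (Finset.univ.filter fun c => P c = 0).card + 2 = N / 2 ∨
      (Finset.univ.filter fun c => P c = 0).card + 3 = N / 2)
    (hprim : (N / 2).Prime ∨ ∃ r : ℕ, r.Prime ∧ N / 2 < 2 * r ∧
      r ∣ Module.finrank ℚ ((Zp N).map (Int.castRingHom ℚ)).SplittingField) : Large N := by
  have hp' : Fact p.Prime := ⟨hp⟩
  refine large_of_frob (Zp_monic N) (X.irreducible_Zp N hN) p
    (Finset.univ.filter fun c => P c = 0) ?_ ?_ ?_ ?_
  · intro c
    rw [Finset.mem_filter, eval_Zp, ← hP]
    simp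
  · intro c hc
    rw [Finset.mem_filter] at hc
    rw [eval_derivative_Zp, ← hP']
    exact hsimple c hc.2
  · rw [Zp_natDegree]
    exact hcard
  · rw [Zp_natDegree]
    exact hprim

theorem large_10 : Large 10 := by
  refine large_of (p := 19) (by norm_num) (by norm_num)
    (fun c => (((((c - 5940) * c + 5045040) * c - 1210809600) * c + 79394515200) * c - 670442572800))
    (fun c => ((((5 * c - 23760) * c + 15135120) * c - 2421619200) * c + 79394515200))
    ?_ ?_ (by decide +kernel) (Or.inr (by decide +kernel)) (Or.inl (by norm_num))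
  · intro c
    simp [Finset.sum_range_succ, cf, Nat.choose, Nat.descFactorial]
    ring
  · intro c
    simp [Finset.sum_range_succ, cf, Nat.choose, Nat.descFactorial]
    ring

theorem large_11 : Large 11 := by
  refine large_of (p := 53) (by norm_num) (by norm_num)
    (fun c => (((((c - 8580) * c + 10810800) * c - 4116752640) * c + 502831929600) * c - 14079294028800))
    (fun c => ((((5 * c - 34320) * c + 32432400) * c - 8233505280) * c + 502831929600))
    ?_ ?_ (by decide +kernel) (Or.inr (by decide +kernel)) (Or.inl (by norm_num))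
  · intro c
    simp [Finset.sum_range_succ, cf, Nat.choose, Nat.descFactorial]
    ring
  · intro c
    simp [Finset.sum_range_succ, cf, Nat.choose, Nat.descFactorial]
    ring

theorem dvd_12 : 5 ∣ Module.finrank ℚ ((Zp 12).map (Int.castRingHom ℚ)).SplittingField :=
  explicit_dvd (p := 5) (r := 5) (s := 2) (c := 2) 1 6 (X.irreducible_Zp 12 (by norm_num))
    (by norm_num) (by norm_num) (by norm_num) (by norm_num) (by decide) (by norm_num)
    (by norm_num) (by norm_num) (by decide) (by decide)

theorem large_12 : Large 12 := by
  refine large_of (p := 23) (by norm_num) (by norm_num)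
    (fun c => ((((((c - 12012) * c + 21621600) * c - 12350257920) * c + 2514159648000) * c - 154872234316800) * c + 1295295050649600))
    (fun c => (((((6 * c - 60060) * c + 86486400) * c - 37050773760) * c + 5028319296000) * c - 154872234316800))
    ?_ ?_ (by decide +kernel) (Or.inr (by decide +kernel)) (Or.inr ⟨5, by norm_num, by norm_num, dvd_12⟩)
  · intro c
    simp [Finset.sum_range_succ, cf, Nat.choose, Nat.descFactorial]
    ring
  · intro c
    simp [Finset.sum_range_succ, cf, Nat.choose, Nat.descFactorial]
    ring

theorem dvd_13 : 5 ∣ Module.finrank ℚ ((Zp 13).map (Int.castRingHom ℚ)).SplittingField :=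
  explicit_dvd (p := 11) (r := 5) (s := 1) (c := 1) 1 6 (X.irreducible_Zp 13 (by norm_num))
    (by norm_num) (by norm_num) (by norm_num) (by norm_num) (by decide) (by norm_num)
    (by norm_num) (by norm_num) (by decide) (by decide)

theorem large_13 : Large 13 := by
  refine large_of (p := 137) (by norm_num) (by norm_num)
    (fun c => ((((((c - 16380) * c + 40840800) * c - 33522128640) * c + 10559470521600) * c - 1187353796428800) * c + 32382376266240000))
    (fun c => (((((6 * c - 81900) * c + 163363200) * c - 100566385920) * c + 21118941043200) * c - 1187353796428800))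
    ?_ ?_ (by decide +kernel) (Or.inl (by decide +kernel)) (Or.inr ⟨5, by norm_num, by norm_num, dvd_13⟩)
  · intro c
    simp [Finset.sum_range_succ, cf, Nat.choose, Nat.descFactorial]
    ring
  · intro c
    simp [Finset.sum_range_succ, cf, Nat.choose, Nat.descFactorial]
    ring

theorem large_14 : Large 14 := by
  refine large_of (p := 379) (by norm_num) (by norm_num)
    (fun c => (((((((c - 21840) * c + 73513440) * c - 83805321600) * c + 38718058579200) * c - 7124122778572800) * c + 420970891461120000) * c - 3497296636753920000))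
    (fun c => ((((((7 * c - 131040) * c + 367567200) * c - 335221286400) * c + 116154175737600) * c - 14248245557145600) * c + 420970891461120000))
    ?_ ?_ (by decide +kernel) (Or.inl (by decide +kernel)) (Or.inl (by norm_num))
  · intro c
    simp [Finset.sum_range_succ, cf, Nat.choose, Nat.descFactorial]
    ring
  · intro c
    simp [Finset.sum_range_succ, cf, Nat.choose, Nat.descFactorial]
    ring

theorem large_15 : Large 15 := by
  refine large_of (p := 53) (by norm_num) (by norm_num)
    (fun c => (((((((c - 28560) * c + 126977760) * c - 195545750400) * c + 127216478188800) * c - 35620613892864000) * c + 3788738023150080000) * c - 101421602465863680000))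
    (fun c => ((((((7 * c - 171360) * c + 634888800) * c - 782183001600) * c + 381649434566400) * c - 71241227785728000) * c + 3788738023150080000))
    ?_ ?_ (by decide +kernel) (Or.inr (by decide +kernel)) (Or.inl (by norm_num))
  · intro c
    simp [Finset.sum_range_succ, cf, Nat.choose, Nat.descFactorial]
    ring
  · intro c
    simp [Finset.sum_range_succ, cf, Nat.choose, Nat.descFactorial]
    ring

end Pool.Agent.Lib.MP_ff3579_an.Y
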